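import Pool.Agent.W512.ML.Tau

/-!
The dimension of the local ring of the quotient.
-/

open MvPolynomial

namespace Pool.Agent.W512.ML

open Pool.Agent.Helper819.Dyn Pool.Agent.Helper819.Apolar

noncomputable section

set_option linter.unusedSectionVars false
set_option synthInstance.maxHeartbeats 400000

variable {k : Type} [Field k] {N d : ℕ}

/-- the matrix of a frame -/
def BM {ν : ℕ} (e : Ix N d ≃ Fin ν ⊕ (Fin (N + 1) × Fin (N + 1))) (τ : Fin ν → Ix N d → k) :
    Matrix (Ix N d) (Ix N d) (SS k N d) :=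
  fun a p => Sum.elim (fun l => C (τ l p)) (fun ij => Xi (Eij k N ij) p) (e a)

theorem eval_BM {ν : ℕ} (e : Ix N d ≃ Fin ν ⊕ (Fin (N + 1) × Fin (N + 1)))
    (τ : Fin ν → Ix N d → k) (f : Ix N d → k) (a p : Ix N d) : eval f (BM e τ a p) =
      Sum.elim τ (fun ij => Helper819.Dyn.xi (Eij k N ij) f) (e a) p := by
  unfold BM
  rcases e a with l | ij
  · simp
  · simp only [Sum.elim_inr]
    exact eval_Xi _ _ _

theorem eval_det_BM {ν : ℕ} {e : Ix N d ≃ Fin ν ⊕ (Fin (N + 1) × Fin (N + 1))}
    {τ : Fin ν → Ix N d → k} {f : Ix N d → k}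
    (h : LinearIndependent k (fun a : Ix N d =>
      Sum.elim τ (fun ij => Helper819.Dyn.xi (Eij k N ij) f) (e a))) :
    eval f (BM e τ).det ≠ 0 := by
  rw [RingHom.map_det]
  have h1 : (eval f).mapMatrix (BM e τ) = Matrix.of (fun a : Ix N d =>
      Sum.elim τ (fun ij => Helper819.Dyn.xi (Eij k N ij) f) (e a)) := by
    ext a p
    exact eval_BM e τ f a p
  rw [h1]
  have h2 : LinearIndependent k (Matrix.of (fun a : Ix N d =>
      Sum.elim τ (fun ij => Helper819.Dyn.xi (Eij k N ij) f) (e a))).row := h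
  rw [Matrix.linearIndependent_rows_iff_isUnit, Matrix.isUnit_iff_isUnit_det] at h2
  exact h2.ne_zero

instance : Algebra.EssFiniteType k (KK k N d) := by
  have h1 : Algebra.EssFiniteType (SS k N d) (KK k N d) :=
    Algebra.EssFiniteType.of_isLocalization _ (nonZeroDivisors (SS k N d))
  exact Algebra.EssFiniteType.comp k (SS k N d) (KK k N d)

theorem exists_dual_der [CharZero k] {m : ℕ} (x : Fin m → KK k N d)
    (hx : AlgebraicIndependent k x) (i : Fin m) :
    ∃ u : Ix N d → KK k N d, ∀ j, ∑ p, u p * pdK p (x j) = if i = j then 1 else 0 := by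
  obtain ⟨φ, h1, h2, h3⟩ := exists_dual_ext (k := k) (L := KK k N d) x (Pi.single i 1) (by
    intro P hP
    have h4 : P = 0 := (algebraicIndependent_iff.mp hx) P hP
    rw [h4]
    simp)
  refine ⟨fun p => derOf φ h1 h2 (gx k N d p), fun j => ?_⟩
  rw [← der_eq]
  change (φ (x j)).snd = _
  rw [h3, Pi.single_apply]
  simp only [eq_comm]

theorem card_le [IsAlgClosed k] [CharZero k] (hd : 2 ≤ d) {f : Ix N d → k} (hf : NZ (tup f))
    {m : ℕ} (x : Fin m → KK k N d) (hx : AlgebraicIndependent k x) (hxO : ∀ i, x i ∈ Oloc f) :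
    m + Fintype.card (Fin (N + 1) × Fin (N + 1)) ≤ Fintype.card (Ix N d) := by
  have hinf : Infinite k := inferInstance
  obtain ⟨ν, e, τ, hτ⟩ := exists_tau hd hf
  have hdet := eval_det_BM hτ
  choose u hu using exists_dual_der x hx
  -- the pairing
  let Φ : (Ix N d → KK k N d) →ₗ[KK k N d] (Fin m → KK k N d) :=
    { toFun := fun v l => ∑ p, v p * pdK p (x l)
      map_add' := by
        intro v w
        funext l
        simp only [Pi.add_apply, add_mul, Finset.sum_add_distrib]
      map_smul' := by
        intro r v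
        funext l
        simp only [Pi.smul_apply, smul_eq_mul, Finset.mul_sum, mul_assoc, RingHom.id_apply] }
  have hΦ : Function.Surjective Φ := by
    intro w
    refine ⟨∑ i, w i • u i, ?_⟩
    rw [map_sum]
    funext j
    rw [Finset.sum_apply, Finset.sum_eq_single j]
    · rw [map_smul, Pi.smul_apply]
      change w j • (∑ p, u j p * pdK p (x j)) = _
      rw [hu, if_pos rfl, smul_eq_mul, mul_one]
    · intro b _ hb
      rw [map_smul, Pi.smul_apply]
      change w b • (∑ p, u b p * pdK p (x j)) = _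
      rw [hu, if_neg hb, smul_zero]
    · simp
  -- independent vectors in the kernel
  have hunit : IsUnit ((BM e τ).map (jj k N d)) := by
    rw [Matrix.isUnit_iff_isUnit_det, isUnit_iff_ne_zero]
    have h1 : ((BM e τ).map (jj k N d)).det = jj k N d (BM e τ).det :=
      (AlgHom.map_det (jj k N d) (BM e τ)).symm
    rw [h1, Ne, jj_eq_zero]
    intro h0
    exact hdet (by rw [h0, map_zero])
  have hrow : LinearIndependent (KK k N d) ((BM e τ).map (jj k N d)).row :=
    Matrix.linearIndependent_rows_iff_isUnit.mpr hunit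
  have hind : LinearIndependent (KK k N d) (fun ij => ((BM e τ).map (jj k N d)).row
      (e.symm (Sum.inr ij))) :=
    hrow.comp (fun ij => e.symm (Sum.inr ij)) (fun a b hab => Sum.inr_injective (e.symm.injective hab))
  have hker : ∀ ij, ((BM e τ).map (jj k N d)).row (e.symm (Sum.inr ij)) ∈ LinearMap.ker Φ := by
    intro ij
    rw [LinearMap.mem_ker]
    funext l
    change ∑ p, jj k N d (BM e τ (e.symm (Sum.inr ij)) p) * pdK p (x l) = 0
    have h1 : ∀ p, BM e τ (e.symm (Sum.inr ij)) p = Xi (Eij k N ij) p := by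
      intro p
      unfold BM
      rw [Equiv.apply_symm_apply, Sum.elim_inr]
    simp only [h1]
    exact Oloc_der (hxO l) _
  have h1 : Fintype.card (Fin (N + 1) × Fin (N + 1)) ≤
      Module.finrank (KK k N d) (LinearMap.ker Φ) := by
    have h2 : LinearIndependent (KK k N d) (fun ij =>
        (⟨_, hker ij⟩ : LinearMap.ker Φ)) := by
      apply LinearIndependent.of_comp (LinearMap.ker Φ).subtype
      exact hind
    exact h2.fintype_card_le_finrank
  have h2 := LinearMap.finrank_range_add_finrank_ker Φ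
  rw [LinearMap.range_eq_top.mpr hΦ, finrank_top, Module.finrank_fintype_fun_eq_card,
    Module.finrank_fintype_fun_eq_card, Fintype.card_fin] at h2
  omega

theorem krullDim_Oloc_le [IsAlgClosed k] [CharZero k] (hd : 2 ≤ d) {f : Ix N d → k}
    (hf : NZ (tup f)) {ν : ℕ} (e : Ix N d ≃ Fin ν ⊕ (Fin (N + 1) × Fin (N + 1))) :
    ringKrullDim (Oloc f) ≤ ν := by
  unfold ringKrullDim Order.krullDim
  refine iSup_le fun s => ?_
  obtain ⟨x, hx⟩ := Helper819.Zar.exists_indep (k := k) (R := Oloc f) s.length s.toFun s.strictMono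
  have hind : AlgebraicIndependent k (fun i => ((x i : Oloc f) : KK k N d)) := by
    rw [algebraicIndependent_iff]
    intro g hg
    apply hx g
    have h1 : ((aeval x g : Oloc f) : KK k N d) = aeval (fun i => ((x i : Oloc f) : KK k N d)) g :=
      comp_aeval_apply x (Oloc f).val g
    rw [← h1] at hg
    have h2 : aeval x g = 0 := Subtype.ext hg
    rw [h2]
    exact zero_mem _
  have h1 := card_le hd hf _ hind (fun i => (x i).2)
  have h2 := Fintype.card_congr e
  rw [Fintype.card_sum, Fintype.card_fin] at h2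
  have h3 : s.length ≤ ν := by omega
  exact_mod_cast h3

end

end Pool.Agent.W512.ML
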