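import Pool.Agent.Helper819.DynDefs

/-!
The structure sheaf of the geometric quotient `M_d^N = End_d^N / PGL_{N+1}` and its local rings.
-/

open MvPolynomial Topology

namespace Pool.Agent.W512.ML

open Pool.Agent.Helper819.Dyn

noncomputable section

variable {k : Type} [Field k] {N d : ℕ}

/-- `h` is a regular function on the subset `U` of the geometric quotient `M_d^N`: its pull back to
the space `End_d^N` of morphisms is regular, that is, near every point it is the quotient of two
forms of the same degree in the coefficients of the morphism. -/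
def IsRegularOn (U : Set (Moduli k N d)) (h : Moduli k N d → k) : Prop :=
  ∀ F : EndTuple k N d, cls F ∈ U →
    ∃ (m : ℕ) (P Q : MvPolynomial (Fin (N + 1) × (Fin (N + 1) →₀ ℕ)) k),
      P.IsHomogeneous m ∧ Q.IsHomogeneous m ∧ eval (coords F) Q ≠ 0 ∧
      ∀ G : EndTuple k N d, cls G ∈ U → eval (coords G) Q ≠ 0 →
        h (cls G) = eval (coords G) P / eval (coords G) Q

theorem IsRegularOn.mono {U V : Set (Moduli k N d)} {h : Moduli k N d → k} (hV : V ⊆ U)
    (hh : IsRegularOn U h) : IsRegularOn V h := by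
  intro F hF
  obtain ⟨m, P, Q, h1, h2, h3, h4⟩ := hh F (hV hF)
  exact ⟨m, P, Q, h1, h2, h3, fun G hG => h4 G (hV hG)⟩

theorem IsRegularOn.const (U : Set (Moduli k N d)) (a : k) : IsRegularOn U (fun _ => a) := by
  intro F _
  refine ⟨0, C a, 1, isHomogeneous_C _ _, isHomogeneous_one _ _, by simp, fun G _ _ => by simp⟩

theorem IsRegularOn.add {U : Set (Moduli k N d)} {h h' : Moduli k N d → k}
    (hh : IsRegularOn U h) (hh' : IsRegularOn U h') : IsRegularOn U (h + h') := by
  intro F hF
  obtain ⟨m, P, Q, h1, h2, h3, h4⟩ := hh F hF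
  obtain ⟨m', P', Q', h1', h2', h3', h4'⟩ := hh' F hF
  refine ⟨m + m', P * Q' + Q * P', Q * Q', (h1.mul h2').add (h2.mul h1'), h2.mul h2',
    by rw [map_mul]; exact mul_ne_zero h3 h3', fun G hG hne => ?_⟩
  rw [map_mul] at hne
  rw [Pi.add_apply, h4 G hG (left_ne_zero_of_mul hne), h4' G hG (right_ne_zero_of_mul hne),
    map_add, map_mul, map_mul, map_mul,
    div_add_div _ _ (left_ne_zero_of_mul hne) (right_ne_zero_of_mul hne)]

theorem IsRegularOn.mul {U : Set (Moduli k N d)} {h h' : Moduli k N d → k}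
    (hh : IsRegularOn U h) (hh' : IsRegularOn U h') : IsRegularOn U (h * h') := by
  intro F hF
  obtain ⟨m, P, Q, h1, h2, h3, h4⟩ := hh F hF
  obtain ⟨m', P', Q', h1', h2', h3', h4'⟩ := hh' F hF
  refine ⟨m + m', P * P', Q * Q', h1.mul h1', h2.mul h2',
    by rw [map_mul]; exact mul_ne_zero h3 h3', fun G hG hne => ?_⟩
  rw [map_mul] at hne
  rw [Pi.mul_apply, h4 G hG (left_ne_zero_of_mul hne), h4' G hG (right_ne_zero_of_mul hne),
    map_mul, map_mul, div_mul_div_comm]

theorem IsRegularOn.neg {U : Set (Moduli k N d)} {h : Moduli k N d → k}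
    (hh : IsRegularOn U h) : IsRegularOn U (-h) := by
  have := (IsRegularOn.const U (-1)).mul hh
  convert this using 1
  funext x
  simp

/-- The local ring of `M_d^N` at the point `x`: the germs at `x` of the regular functions on the
open neighbourhoods of `x`. -/
def localRing (x : Moduli k N d) : Subring ((𝓝 x).Germ k) where
  carrier := {g | ∃ (U : Set (Moduli k N d)) (h : Moduli k N d → k),
    IsOpen U ∧ x ∈ U ∧ IsRegularOn U h ∧ g = (h : (𝓝 x).Germ k)}
  mul_mem' := by
    rintro _ _ ⟨U, h, hU, hx, hh, rfl⟩ ⟨U', h', hU', hx', hh', rfl⟩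
    exact ⟨U ∩ U', h * h', hU.inter hU', ⟨hx, hx'⟩,
      (hh.mono Set.inter_subset_left).mul (hh'.mono Set.inter_subset_right), rfl⟩
  one_mem' := ⟨Set.univ, fun _ => 1, isOpen_univ, trivial, IsRegularOn.const _ _, rfl⟩
  add_mem' := by
    rintro _ _ ⟨U, h, hU, hx, hh, rfl⟩ ⟨U', h', hU', hx', hh', rfl⟩
    exact ⟨U ∩ U', h + h', hU.inter hU', ⟨hx, hx'⟩,
      (hh.mono Set.inter_subset_left).add (hh'.mono Set.inter_subset_right), rfl⟩
  zero_mem' := ⟨Set.univ, fun _ => 0, isOpen_univ, trivial, IsRegularOn.const _ _, rfl⟩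
  neg_mem' := by
    rintro _ ⟨U, h, hU, hx, hh, rfl⟩
    exact ⟨U, -h, hU, hx, hh.neg, rfl⟩

/-- `Aut(f) ≠ 1`: some element of `PGL_{N+1}(k) = GL_{N+1}(k) / center` other than the identity
commutes with the morphism `f = [F_0 : ... : F_N]`. -/
def HasAut (F : EndTuple k N d) : Prop :=
  ∃ φ : GL (Fin (N + 1)) k, φ ∉ Subgroup.center (GL (Fin (N + 1)) k) ∧
    ∃ c : kˣ, conj φ F.1 = fun i => C (c : k) * F.1 i

/-- The singular locus of `M_d^N`: the points whose local ring is not regular. -/
def singularLocus (k : Type) [Field k] (N d : ℕ) : Set (Moduli k N d) :=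
  {x | ¬ IsRegularLocalRing (localRing x)}

end

end Pool.Agent.W512.ML
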