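import Pool.Agent.W512.ML.Final0
import Pool.Agent.W45.ML.RegB

/-!
The converse direction.
-/

open MvPolynomial

namespace Pool.Agent.W512.ML

open Pool.Agent.Helper819.Apolar Pool.Agent.Helper819.Dyn Pool.Agent.Helper819.Gr

noncomputable section

theorem regular_of {R : Type*} [CommRing R] [IsLocalRing R] [IsNoetherianRing R] {ν : ℕ}
    (y : Fin ν → R) (hgen : IsLocalRing.maximalIdeal R = Ideal.span (Set.range y))
    (hdim : (ν : WithBot ℕ∞) ≤ ringKrullDim R) : IsRegularLocalRing R := by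
  apply IsRegularLocalRing.of_spanFinrank_maximalIdeal_le
  refine le_trans ?_ hdim
  have h1 : (IsLocalRing.maximalIdeal R).spanFinrank ≤ ν := by
    rw [hgen]
    have h2 := Submodule.spanFinrank_span_le_ncard_of_finite (R := R) (Set.finite_range y)
    refine h2.trans ?_
    rw [← Set.image_univ]
    refine (Set.ncard_image_le Set.finite_univ).trans ?_
    rw [Set.ncard_univ]
    simp
  exact_mod_cast h1

/-- generators of the maximal ideal at a point with trivial stabiliser -/
def GensStm : Prop :=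
  ∀ {k : Type} [Field k] [IsAlgClosed k] [CharZero k] {N d : ℕ} (_ : 2 ≤ d) {f : Ix N d → k}
    (_ : NZ (tup f)) (_ : ∀ A : Matrix (Fin (N + 1)) (Fin (N + 1)) k, A.det ≠ 0 →
      actT A f = f → ∃ μ : k, A = μ • 1),
    ∃ (ν : ℕ) (_ : Ix N d ≃ Fin ν ⊕ (Fin (N + 1) × Fin (N + 1))) (y : Fin ν → Oloc f),
      (∀ i, val0 f (y i) = 0) ∧
      LinearIndependent k (fun i => fun p => val0 f (pdK p (y i : KK k N d))) ∧
      IsLocalRing.maximalIdeal (Oloc f) = Ideal.span (Set.range y)

theorem regular_Oloc (G : GensStm) {k : Type} [Field k] [IsAlgClosed k] [CharZero k] {N d : ℕ}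
    (hd : 2 ≤ d) {f : Ix N d → k} (hf : NZ (tup f))
    (triv : ∀ A : Matrix (Fin (N + 1)) (Fin (N + 1)) k, A.det ≠ 0 →
      actT A f = f → ∃ μ : k, A = μ • 1) : IsRegularLocalRing (Oloc f) := by
  have := Pool.Agent.W253.ML.noeth hd hf
  obtain ⟨ν, -, y, -, h2, h3⟩ := G hd hf triv
  exact regular_of y h3 (Pool.Agent.W45.ML.dim_ge y h3 h2)

theorem final (G : GensStm) (k : Type) [Field k] [IsAlgClosed k] [CharZero k] (N d : ℕ)
    (hN : 2 ≤ N) (hd : 2 ≤ d) :
    (∀ x : Moduli k N d, IsLocalRing (localRing x) ∧ IsNoetherianRing (localRing x)) ∧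
    singularLocus k N d = {x | ∃ F : EndTuple k N d, cls F = x ∧ HasAut F} := by
  refine ⟨fun x => isLocal_localRing (by omega) hd x, ?_⟩
  ext x
  constructor
  · intro hx
    obtain ⟨F, rfl⟩ := cls_surjective x
    refine ⟨F, rfl, ?_⟩
    by_contra hcon
    apply hx
    obtain ⟨e⟩ := Pool.Agent.W45.ML.iso (by omega) hd F
    rw [hasAut_iff (by omega)] at hcon
    have hreg := regular_Oloc G hd (Pool.Agent.W45.ML.NZ_cf F) (by
      intro A hA hAf
      by_contra hμ
      push Not at hμ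
      exact hcon ⟨A, hA, hAf, hμ⟩)
    exact IsRegularLocalRing.of_ringEquiv e.symm
  · rintro ⟨F, rfl, hF⟩
    exact not_regular_of_hasAut hN hd F hF

end

end Pool.Agent.W512.ML
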