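import Pool.Agent.Helper819.Gr.Lead5

/-!
The conjugation action as a `DAct`, and linear leading forms of semi-invariants.
-/

open MvPolynomial

namespace Pool.Agent.W512.ML

open Pool.Agent.Helper819.Apolar Pool.Agent.Helper819.Dyn Pool.Agent.Helper819.Gr

noncomputable section

set_option linter.unusedSectionVars false

/-- the conjugation action -/
def MA (N d : ℕ) : DAct Unit (N + 1) (Ix N d) where
  act A c := actT (A ()) c
  map_act φ A c p := map_actT φ (A ()) c p
  act_act A B c := actT_actT (A ()) (B ()) c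
  act_one c := actT_one c
  act_add A c c' := actT_add (A ()) c c'
  act_smul A r c := actT_smul (A ()) r c
  xi Y c := Helper819.Dyn.xi (Y ()) c
  xi_add Y Y' c := Helper819.Dyn.xi_add (Y ()) (Y' ()) c
  xi_smul r Y c := Helper819.Dyn.xi_smul r (Y ()) c
  map_xi φ Y c p := Helper819.Dyn.map_xi φ (Y ()) c p
  act_eps e he Y c p := actT_eps e he (Y ()) c p

variable {k : Type} [Field k] {N d : ℕ}

theorem detw_unit {n : ℕ} {R : Type} [CommRing R] (w : Unit → ℕ) (A : Mt Unit n R) :
    detw w A = (A ()).det ^ w () := by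
  unfold detw
  simp

theorem isSemi_iff (w : Unit → ℕ) (P : MvPolynomial (Ix N d) k) :
    Helper819.Gr.IsSemi (MA N d).toRAct w P ↔ Helper819.Dyn.IsSemi (w ()) P := by
  constructor
  · intro h A c
    have := h (fun _ => A) c
    rw [detw_unit] at this
    exact this
  · intro h A c
    rw [detw_unit]
    exact h (A ()) c

/-- polynomials vanishing along the orbit -/
theorem aeval_orb_eq_zero [Infinite k] (c : Ix N d → k) (P : SS k N d) :
    aeval (Helper819.Gr.orb (MA N d).toRAct c) P = 0 ↔
      ∀ A : Matrix (Fin (N + 1)) (Fin (N + 1)) k, A.det ≠ 0 → eval (actT A c) P = 0 := by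
  constructor
  · intro h A _
    have h1 := Helper819.Gr.eval_aeval_orb (MA N d).toRAct (fun _ => A) c P
    rw [h, map_zero] at h1
    exact h1.symm
  · intro h
    apply Helper819.Gr.poly_ext
    intro A hA
    rw [Helper819.Gr.eval_aeval_orb, map_zero]
    exact h (A ()) (hA ())

theorem det_inv_ne (A : Matrix (Fin (N + 1)) (Fin (N + 1)) k) (hA : A.det ≠ 0) :
    (A⁻¹).det ≠ 0 := by
  rw [Matrix.det_nonsing_inv, Ring.inverse_eq_inv']
  exact inv_ne_zero hA

theorem actT_inv (A : Matrix (Fin (N + 1)) (Fin (N + 1)) k) (hA : A.det ≠ 0) (c : Ix N d → k) :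
    actT A⁻¹ (actT A c) = c := by
  rw [actT_actT, Matrix.mul_nonsing_inv _ (isUnit_iff_ne_zero.mpr hA), actT_one]

variable [IsAlgClosed k] [CharZero k]

/-- At a point with trivial stabiliser every conormal vector of the orbit is the differential of a
semi-invariant. -/
theorem lead (hd : 2 ≤ d) {s : Ix N d → k} (hs : NZ (tup s)) {r : ℕ} {D : SS k N d}
    (hD : Helper819.Dyn.IsSemi r D) (hDnz : ∀ c : Ix N d → k, eval c D ≠ 0 → NZ (tup c))
    (triv : ∀ A : Matrix (Fin (N + 1)) (Fin (N + 1)) k, A.det ≠ 0 → actT A s = s →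
      ∃ μ : k, A = μ • 1) (ℓ : Ix N d → k)
    (hℓ : ∀ Y : Matrix (Fin (N + 1)) (Fin (N + 1)) k, ∑ p, ℓ p * Helper819.Dyn.xi Y s p = 0) :
    ∃ (m : ℕ) (q : SS k N d), Helper819.Dyn.IsSemi (m * r) q ∧ eval s q = 0 ∧
      ∀ v, dd q s v = eval s D ^ m * ∑ p, ℓ p * v p := by
  have hQj : (∑ p, C (ℓ p) * X p : SS k N d).IsHomogeneous 1 :=
    IsHomogeneous.sum _ _ _ fun p _ => isHomogeneous_C_mul_X _ _
  have hev : ∀ v : Ix N d → k, eval v (∑ p, C (ℓ p) * X p : SS k N d) = ∑ p, ℓ p * v p := by
    intro v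
    rw [map_sum]
    exact Finset.sum_congr rfl fun p _ => by rw [map_mul, eval_C, eval_X]
  obtain ⟨m, q, h1, h2, h3⟩ := exists_lead (MA N d) s (r := fun _ => r) (D := D)
    ((isSemi_iff _ _).mpr hD) (by
      intro c hc h P hP
      rw [aeval_orb_eq_zero] at hP
      obtain ⟨A, hA, rfl⟩ := closed_GL hd hs c (hDnz c hc) (by
        intro P hP
        exact h P ((aeval_orb_eq_zero _ _).mpr hP))
      have h4 := hP A⁻¹ (det_inv_ne A hA)
      rwa [actT_inv A hA] at h4) 1 (∑ p, C (ℓ p) * X p) hQj (by
      intro Y v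
      rw [hev, hev]
      have h4 : ∀ p, ℓ p * (v + (MA N d).xi Y s) p = ℓ p * v p + ℓ p * Helper819.Dyn.xi (Y ()) s p := by
        intro p
        rw [Pi.add_apply, mul_add]
        rfl
      simp_rw [h4]
      rw [Finset.sum_add_distrib, hℓ, add_zero]) (by
      intro A hA hAs v
      obtain ⟨μ, hμ⟩ := triv (A ()) (hA ()) hAs
      have h4 : μ ^ (N + d) • s = s := by
        have : actT (A ()) s = s := hAs
        rwa [hμ, actT_scalar] at this
      have hs0 : ∃ p, s p ≠ 0 := by
        by_contra hcon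
        push Not at hcon
        have h5 : s = 0 := funext hcon
        have h6 := hs (fun _ => 1) (by
          intro i
          rw [h5]
          simp [tup])
        have := congrFun h6 0
        simp at this
      obtain ⟨p, hp⟩ := hs0
      have h5 : μ ^ (N + d) = 1 := by
        have h6 := congrFun h4 p
        simp only [Pi.smul_apply, smul_eq_mul] at h6
        exact mul_right_cancel₀ hp (by rw [h6, one_mul])
      have h6 : (MA N d).toRAct.act A v = v := by
        change actT (A ()) v = v
        rw [hμ, actT_scalar, h5, one_smul]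
      rw [h6])
  refine ⟨m, q, ?_, ?_, ?_⟩
  · have := (isSemi_iff _ _).mp h1
    simpa using this
  · have h4 := h2 0 one_pos
    have h5 := eval_lf 0 q s s
    rw [h4, map_zero, tayl_coeff_zero] at h5
    rw [← coe_aeval_eq_eval]
    exact h5.symm
  · intro v
    have h4 := h3 v
    rw [hev, eval_lf, tayl_coeff_one] at h4
    rw [← h4]
    unfold dd
    exact Finset.sum_congr rfl fun p _ => by rw [← coe_aeval_eq_eval]; rfl

end

end Pool.Agent.W512.ML
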