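import Pool.Agent.W512.ML.Sing3
import Pool.Agent.W45.ML.Iso

/-!
From coefficient vectors to morphisms.
-/

open MvPolynomial

namespace Pool.Agent.W512.ML

open Pool.Agent.Helper819.Apolar Pool.Agent.Helper819.Dyn Pool.Agent.Helper819.Gr

noncomputable section

variable {k : Type} [Field k] [IsAlgClosed k] {N d : ℕ}

theorem hasAut_iff (hNd : 0 < N + d) (F : EndTuple k N d) :
    HasAut F ↔ ∃ A : Matrix (Fin (N + 1)) (Fin (N + 1)) k, A.det ≠ 0 ∧
      actT A (cf (d := d) F.1) = cf F.1 ∧ ∀ μ : k, A ≠ μ • 1 := by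
  constructor
  · rintro ⟨φ, hφ, c, hc⟩
    have hdet : (φ : Matrix (Fin (N + 1)) (Fin (N + 1)) k).det ≠ 0 :=
      ((Matrix.isUnit_iff_isUnit_det _).mp φ.isUnit).ne_zero
    have h1 : actT (φ : Matrix (Fin (N + 1)) (Fin (N + 1)) k) (cf (d := d) F.1) =
        ((φ : Matrix (Fin (N + 1)) (Fin (N + 1)) k).det * (c : k)) • cf (d := d) F.1 := by
      unfold actT
      rw [tup_cf F.2.1, ← cf_C_mul]
      congr 1
      funext i
      rw [conj_eq_act, hc, C_mul, mul_assoc]
    have hr : (φ : Matrix (Fin (N + 1)) (Fin (N + 1)) k).det * (c : k) ≠ 0 :=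
      mul_ne_zero hdet c.ne_zero
    obtain ⟨s, hs⟩ := IsAlgClosed.exists_pow_nat_eq
      ((φ : Matrix (Fin (N + 1)) (Fin (N + 1)) k).det * (c : k))⁻¹ hNd
    have hs0 : s ≠ 0 := by
      rintro rfl
      rw [zero_pow hNd.ne'] at hs
      exact inv_ne_zero hr hs.symm
    refine ⟨s • (φ : Matrix (Fin (N + 1)) (Fin (N + 1)) k), ?_, ?_, ?_⟩
    · rw [Matrix.det_smul]
      exact mul_ne_zero (pow_ne_zero _ hs0) hdet
    · rw [actT_smul_mat, h1, hs, smul_smul, inv_mul_cancel₀ hr, one_smul]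
    · intro μ hμ
      apply hφ
      rw [Matrix.GeneralLinearGroup.mem_center_iff_val_mem_range_scalar]
      refine ⟨s⁻¹ * μ, ?_⟩
      rw [Matrix.scalar_apply, ← Matrix.smul_one_eq_diagonal, mul_smul, ← hμ, smul_smul,
        inv_mul_cancel₀ hs0, one_smul]
  · rintro ⟨A, hA, hAf, hns⟩
    refine ⟨Matrix.GeneralLinearGroup.mkOfDetNeZero A hA, ?_, Units.mk0 (A.det)⁻¹ (inv_ne_zero hA),
      ?_⟩
    · rw [Matrix.GeneralLinearGroup.mem_center_iff_val_mem_range_scalar]
      rintro ⟨μ, hμ⟩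
      apply hns μ
      rw [Matrix.scalar_apply, ← Matrix.smul_one_eq_diagonal] at hμ
      exact hμ.symm
    · funext i
      have h1 := conj_eq_act (Matrix.GeneralLinearGroup.mkOfDetNeZero A hA) F.1 i
      have h2 : act A F.1 = F.1 := by
        have h3 := congrArg (tup (d := d)) hAf
        rw [tup_actT, tup_cf F.2.1] at h3
        exact h3
      have h3 : ((Matrix.GeneralLinearGroup.mkOfDetNeZero A hA : GL (Fin (N + 1)) k) :
        Matrix (Fin (N + 1)) (Fin (N + 1)) k) = A := rfl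
      rw [h3, h2] at h1
      rw [h1, Units.val_mk0, ← mul_assoc, ← C_mul, inv_mul_cancel₀ hA, C_1, one_mul]

end

end Pool.Agent.W512.ML
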