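import Pool.Agent.W512.ML.KK

/-!
Derivations of the field of rational functions.
-/

open MvPolynomial

namespace Pool.Agent.W512.ML

open Pool.Agent.Helper819.Dyn Pool.Agent.Helper819.Apolar

noncomputable section

set_option linter.unusedSectionVars false

variable {k : Type} [Field k] {N d : ℕ}

/-- the generic point -/
def gx (k : Type) [Field k] (N d : ℕ) : Ix N d → KK k N d := fun p => jj k N d (X p)

theorem jj_eq_aeval (P : SS k N d) : jj k N d P = aeval (gx k N d) P := by
  have : jj k N d = aeval (gx k N d) := by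
    apply MvPolynomial.algHom_ext
    intro p
    rw [aeval_X]
    rfl
  rw [this]

/-- the derivation given by a dual number valued homomorphism -/
def derOf {K : Type} [Field K] [Algebra k K] (φ : K →+* DualNumber K)
    (h1 : ∀ a, (φ a).fst = a)
    (h2 : ∀ r : k, φ (algebraMap k K r) = algebraMap k (DualNumber K) r) : Derivation k K K where
  toFun a := (φ a).snd
  map_add' a b := by rw [map_add]; rfl
  map_smul' r a := by
    rw [Algebra.smul_def, map_mul, h2, DualNumber.snd_mul, h1]
    have e1 : (algebraMap k (DualNumber K) r).fst = algebraMap k K r := rfl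
    have e2 : (algebraMap k (DualNumber K) r).snd = 0 := rfl
    rw [e1, e2, zero_mul, add_zero, RingHom.id_apply, Algebra.smul_def]
  map_one_eq_zero' := by
    change (φ 1).snd = 0
    rw [map_one]
    rfl
  leibniz' a b := by
    change (φ (a * b)).snd = a • (φ b).snd + b • (φ a).snd
    rw [map_mul, DualNumber.snd_mul, h1, h1, smul_eq_mul, smul_eq_mul]
    ring

theorem exists_der (v : Ix N d → KK k N d) :
    ∃ δ : Derivation k (KK k N d) (KK k N d), ∀ p, δ (gx k N d p) = v p := by
  let ψ : SS k N d →ₐ[k] DualNumber (KK k N d) :=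
    aeval (fun p => algebraMap (KK k N d) (DualNumber (KK k N d)) (gx k N d p) +
      DualNumber.eps * algebraMap (KK k N d) (DualNumber (KK k N d)) (v p))
  have hψ : ∀ P, ψ P = algebraMap (KK k N d) (DualNumber (KK k N d)) (jj k N d P) +
      DualNumber.eps * algebraMap (KK k N d) (DualNumber (KK k N d))
        (∑ p, v p * aeval (gx k N d) (pderiv p P)) := by
    intro P
    rw [jj_eq_aeval]
    exact aeval_dual (gx k N d) v P
  have hunit : ∀ y : nonZeroDivisors (SS k N d), IsUnit (ψ.toRingHom y) := by
    rintro ⟨y, hy⟩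
    rw [TrivSqZeroExt.isUnit_iff_isUnit_fst]
    change IsUnit ((ψ y).fst)
    rw [hψ, fst_form, isUnit_iff_ne_zero, Ne, jj_eq_zero]
    exact nonZeroDivisors.ne_zero hy
  let φ : KK k N d →+* DualNumber (KK k N d) :=
    IsLocalization.lift (M := nonZeroDivisors (SS k N d)) hunit
  have hφ : ∀ P, φ (jj k N d P) = ψ P := fun P => IsLocalization.lift_eq hunit P
  have h1 : ∀ a, (φ a).fst = a := by
    have h2 : (TrivSqZeroExt.fstHom (KK k N d) (KK k N d) (KK k N d)).toRingHom.comp φ =
        RingHom.id (KK k N d) := by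
      apply IsLocalization.ringHom_ext (nonZeroDivisors (SS k N d))
      refine RingHom.ext fun P => ?_
      change (φ (jj k N d P)).fst = jj k N d P
      rw [hφ, hψ, fst_form]
    intro a
    exact congrFun (congrArg DFunLike.coe h2) a
  have h2 : ∀ r : k, φ (algebraMap k (KK k N d) r) = algebraMap k _ r := by
    intro r
    have h3 : algebraMap k (KK k N d) r = jj k N d (C r) := (AlgHom.commutes (jj k N d) r).symm
    rw [h3, hφ]
    exact AlgHom.commutes ψ r
  refine ⟨derOf φ h1 h2, fun p => ?_⟩
  change (φ (jj k N d (X p))).snd = v p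
  have h3 : ψ (X p) = algebraMap (KK k N d) (DualNumber (KK k N d)) (gx k N d p) +
      DualNumber.eps * algebraMap (KK k N d) (DualNumber (KK k N d)) (v p) := aeval_X _ _
  rw [hφ, h3, snd_form]

/-- the derivation along a vector field -/
def derv (v : Ix N d → KK k N d) : Derivation k (KK k N d) (KK k N d) := (exists_der v).choose

theorem derv_gx (v : Ix N d → KK k N d) (p : Ix N d) : derv v (gx k N d p) = v p :=
  (exists_der v).choose_spec p

theorem der_ext {δ δ' : Derivation k (KK k N d) (KK k N d)}
    (h : ∀ p, δ (gx k N d p) = δ' (gx k N d p)) : δ = δ' := by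
  have h1 : ∀ P : SS k N d, δ (jj k N d P) = δ' (jj k N d P) := by
    have h2 : δ.compAlgebraMap (SS k N d) = δ'.compAlgebraMap (SS k N d) := by
      apply MvPolynomial.derivation_ext
      intro p
      exact h p
    intro P
    exact congrFun (congrArg DFunLike.coe h2) P
  ext a
  obtain ⟨P, Q, hQ, rfl⟩ := IsFractionRing.div_surjective (A := SS k N d) a
  have h3 := h1 P
  have h4 := h1 Q
  rw [jj_apply] at h3 h4
  rw [Derivation.leibniz_div, Derivation.leibniz_div, h3, h4]

/-- partial derivatives of rational functions -/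
def pdK (p : Ix N d) : Derivation k (KK k N d) (KK k N d) := derv (Pi.single p 1)

theorem pdK_gx (p q : Ix N d) : pdK p (gx k N d q) = if q = p then 1 else 0 := by
  unfold pdK
  rw [derv_gx, Pi.single_apply]

theorem der_sum {ι : Type*} (s : Finset ι) (D : ι → Derivation k (KK k N d) (KK k N d))
    (a : KK k N d) : (∑ i ∈ s, D i) a = ∑ i ∈ s, D i a := by
  classical
  induction s using Finset.induction_on with
  | empty => rw [Finset.sum_empty, Finset.sum_empty]; rfl
  | insert i s hi ih =>
    rw [Finset.sum_insert hi, Finset.sum_insert hi, Derivation.add_apply, ih]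

theorem der_eq (δ : Derivation k (KK k N d) (KK k N d)) (a : KK k N d) :
    δ a = ∑ p, δ (gx k N d p) * pdK p a := by
  have h : δ = ∑ p, δ (gx k N d p) • pdK p := by
    apply der_ext
    intro q
    rw [der_sum, Finset.sum_eq_single q]
    · rw [Derivation.smul_apply, pdK_gx, if_pos rfl, smul_eq_mul, mul_one]
    · intro p _ hp
      rw [Derivation.smul_apply, pdK_gx, if_neg hp.symm, smul_zero]
    · simp
  conv_lhs => rw [h]
  rw [der_sum]
  rfl

theorem pdK_jj (p : Ix N d) (P : SS k N d) : pdK p (jj k N d P) = jj k N d (pderiv p P) := by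
  induction P using MvPolynomial.induction_on with
  | C a =>
    rw [pderiv_C, map_zero]
    have h : jj k N d (C a) = algebraMap k (KK k N d) a := AlgHom.commutes (jj k N d) a
    rw [h]
    exact Derivation.map_algebraMap _ _
  | add p q hp hq => simp only [map_add, hp, hq]
  | mul_X P q hP =>
    have hX : pdK p (jj k N d (X q)) = jj k N d (pderiv p (X q)) := by
      change pdK p (gx k N d q) = _
      rw [pdK_gx, pderiv_X, Pi.single_apply]
      split_ifs <;> simp
    rw [map_mul, Derivation.leibniz, Derivation.leibniz, hP, hX, map_add]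
    simp only [smul_eq_mul, map_mul]

theorem pdK_div (p : Ix N d) (P Q : SS k N d) : pdK p (jj k N d P / jj k N d Q) =
    jj k N d (pderiv p P * Q - P * pderiv p Q) / jj k N d (Q ^ 2) := by
  rw [Derivation.leibniz_div, pdK_jj, pdK_jj, map_sub, map_mul, map_mul, map_pow]
  simp only [smul_eq_mul]
  rw [inv_pow, inv_mul_eq_div]
  ring

theorem pdK_mem {f : Ix N d → k} {a : KK k N d} (ha : a ∈ Rloc f) (p : Ix N d) :
    pdK p a ∈ Rloc f := by
  obtain ⟨P, Q, hQ, rfl⟩ := ha
  exact ⟨_, _, by rw [map_pow]; exact pow_ne_zero _ hQ, pdK_div p P Q⟩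

theorem val0_add {f : Ix N d → k} {a b : KK k N d} (ha : a ∈ Rloc f) (hb : b ∈ Rloc f) :
    val0 f (a + b) = val0 f a + val0 f b := map_add (valf f) ⟨a, ha⟩ ⟨b, hb⟩

theorem val0_mul {f : Ix N d → k} {a b : KK k N d} (ha : a ∈ Rloc f) (hb : b ∈ Rloc f) :
    val0 f (a * b) = val0 f a * val0 f b := map_mul (valf f) ⟨a, ha⟩ ⟨b, hb⟩

theorem val0_sum {f : Ix N d → k} {ι : Type*} (s : Finset ι) {a : ι → KK k N d}
    (ha : ∀ i ∈ s, a i ∈ Rloc f) : val0 f (∑ i ∈ s, a i) = ∑ i ∈ s, val0 f (a i) := by
  classical
  induction s using Finset.induction_on with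
  | empty =>
    rw [Finset.sum_empty, Finset.sum_empty]
    exact map_zero (valf f)
  | insert i s hi ih =>
    rw [Finset.sum_insert hi, Finset.sum_insert hi, val0_add (ha i (Finset.mem_insert_self i s))
      (Subalgebra.sum_mem _ fun j hj => ha j (Finset.mem_insert_of_mem hj)),
      ih fun j hj => ha j (Finset.mem_insert_of_mem hj)]

theorem jj_mem (f : Ix N d → k) (P : SS k N d) : jj k N d P ∈ Rloc f :=
  ⟨P, 1, by simp, by rw [map_one, div_one]⟩

theorem val0_jj (f : Ix N d → k) (P : SS k N d) : val0 f (jj k N d P) = eval f P := by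
  rw [val0_eq (P := P) (Q := 1) (by simp) (by rw [map_one, div_one])]
  simp

/-- The polynomial vector field of the infinitesimal action. -/
def Xi (Y : Matrix (Fin (N + 1)) (Fin (N + 1)) k) (p : Ix N d) : SS k N d :=
  Helper819.Dyn.xi (Y.map C) (X : Ix N d → SS k N d) p

theorem eval_Xi (Y : Matrix (Fin (N + 1)) (Fin (N + 1)) k) (c : Ix N d → k) (p : Ix N d) :
    eval c (Xi Y p) = Helper819.Dyn.xi Y c p := by
  unfold Xi
  rw [map_xi]
  have h1 : (Y.map (C : k →+* SS k N d)).map (eval c) = Y := by
    ext i j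
    simp
  rw [h1]
  congr 1
  funext q
  exact eval_X q

/-- infinitesimal invariance -/
theorem inv_lie [Infinite k] {P Q : SS k N d} (h : InvPair P Q)
    (Y : Matrix (Fin (N + 1)) (Fin (N + 1)) k) (c : Ix N d → k) :
    dd P c (Helper819.Dyn.xi Y c) * eval c Q = eval c P * dd Q c (Helper819.Dyn.xi Y c) := by
  have h1 : aeval (orb c) P * C (eval c Q) = C (eval c P) * aeval (orb c) Q := by
    apply poly_ext
    intro A hA
    rw [map_mul, map_mul, eval_aeval_orb, eval_aeval_orb, eval_C, eval_C]
    exact h A hA c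
  have h2 := congrArg (aeval (ent (oneEps (DualNumber.eps : DualNumber k) Y))) h1
  have h3 : actT (oneEps (DualNumber.eps : DualNumber k) Y)
      (fun p => algebraMap k (DualNumber k) (c p)) = fun p => algebraMap k (DualNumber k) (c p) +
        DualNumber.eps * algebraMap k (DualNumber k) (Helper819.Dyn.xi Y c p) := by
    funext p
    exact actT_eps _ DualNumber.eps_mul_eps Y c p
  rw [map_mul, map_mul, aeval_aeval_orb_S, aeval_aeval_orb_S, h3,
    eval_eps _ DualNumber.eps_mul_eps, eval_eps _ DualNumber.eps_mul_eps, algHom_C, algHom_C] at h2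
  have h4 := congrArg TrivSqZeroExt.snd h2
  have h5 : ∀ a b e : k, TrivSqZeroExt.snd ((algebraMap k (DualNumber k) a +
      DualNumber.eps * algebraMap k (DualNumber k) b) * algebraMap k (DualNumber k) e) = b * e := by
    intro a b e
    have : (algebraMap k (DualNumber k) a +
      DualNumber.eps * algebraMap k (DualNumber k) b) * algebraMap k (DualNumber k) e =
      algebraMap k (DualNumber k) (a * e) + DualNumber.eps * algebraMap k (DualNumber k) (b * e) := by
      rw [map_mul, map_mul]
      ring
    rw [this, snd_form]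
  rw [h5, mul_comm (algebraMap k (DualNumber k) (eval c P)), h5] at h4
  rw [mul_comm (eval c P)]
  exact h4

theorem inv_der [Infinite k] {P Q : SS k N d} (hQ : Q ≠ 0) (h : InvPair P Q)
    (Y : Matrix (Fin (N + 1)) (Fin (N + 1)) k) :
    ∑ p, jj k N d (Xi Y p) * pdK p (jj k N d P / jj k N d Q) = 0 := by
  have h0 : jj k N d Q ≠ 0 := by rwa [Ne, jj_eq_zero]
  have h1 : (∑ p, Xi Y p * pderiv p P) * Q = P * ∑ p, Xi Y p * pderiv p Q := by
    apply MvPolynomial.funext
    intro c
    have h2 := inv_lie h Y c
    unfold dd at h2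
    rw [map_mul, map_mul, map_sum, map_sum]
    simp only [map_mul, eval_Xi]
    exact h2
  have h2 : ∀ p, jj k N d (Xi Y p) * pdK p (jj k N d P / jj k N d Q) =
      jj k N d (Xi Y p * pderiv p P * Q - P * (Xi Y p * pderiv p Q)) / jj k N d (Q ^ 2) := by
    intro p
    rw [pdK_div, mul_div_assoc', ← map_mul]
    congr 2
    ring
  simp_rw [h2]
  rw [← Finset.sum_div, ← map_sum, Finset.sum_sub_distrib, ← Finset.sum_mul, ← Finset.mul_sum, h1,
    sub_self, map_zero, zero_div]

theorem Oloc_der [Infinite k] {f : Ix N d → k} {a : KK k N d} (ha : a ∈ Oloc f)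
    (Y : Matrix (Fin (N + 1)) (Fin (N + 1)) k) : ∑ p, jj k N d (Xi Y p) * pdK p a = 0 := by
  obtain ⟨P, Q, hQ, rfl, h⟩ := ha
  exact inv_der (by rintro rfl; exact hQ (map_zero _)) h Y

end

end Pool.Agent.W512.ML
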