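import Pool.Agent.W512.ML.Bridge
import Pool.Agent.W253.ML.Noeth

/-!
The main direction: a nontrivial automorphism makes the point singular.
-/

open MvPolynomial

namespace Pool.Agent.W512.ML

open Pool.Agent.Helper819.Apolar Pool.Agent.Helper819.Dyn Pool.Agent.Helper819.Gr

noncomputable section

variable {k : Type} [Field k] [IsAlgClosed k] [CharZero k] {N d : ℕ}

theorem isLocal_localRing (hN : 1 ≤ N) (hd : 2 ≤ d) (x : Moduli k N d) :
    IsLocalRing (localRing x) ∧ IsNoetherianRing (localRing x) := by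
  obtain ⟨F, rfl⟩ := cls_surjective x
  obtain ⟨e⟩ := Pool.Agent.W45.ML.iso hN hd F
  have hnz := Pool.Agent.W45.ML.NZ_cf F
  have := Pool.Agent.W253.ML.noeth hd hnz
  exact ⟨e.symm.isLocalRing, isNoetherianRing_of_ringEquiv _ e.symm⟩

theorem not_regular_of_hasAut (hN : 2 ≤ N) (hd : 2 ≤ d) (F : EndTuple k N d) (hF : HasAut F) :
    ¬ IsRegularLocalRing (localRing (cls F)) := by
  intro hreg
  obtain ⟨A, hA, hAf, hns⟩ := (hasAut_iff (by omega) F).mp hF
  obtain ⟨e⟩ := Pool.Agent.W45.ML.iso (by omega) hd F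
  exact not_regular hN hd (Pool.Agent.W45.ML.NZ_cf F) hA hAf hns (IsRegularLocalRing.of_ringEquiv e)

end

end Pool.Agent.W512.ML
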