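import Pool.Agent.W512.ML.Rank

/-!
Every hypersurface (and the whole space) contains a point with trivial stabiliser.
-/

open MvPolynomial

namespace Pool.Agent.W512.ML

open Pool.Agent.Helper819.Dyn Pool.Agent.Helper819.Apolar

noncomputable section

set_option linter.unusedSectionVars false

/-- A system of equations which is solvable at the closed points is solvable at the generic
point. -/
theorem transfer {k L σ τ ι : Type} [Field k] [IsAlgClosed k] [Field L] [Algebra k L]
    [IsAlgClosed L] [Finite σ] [Finite τ] [Fintype ι] (η : σ → L) (D : MvPolynomial σ k)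
    (hD : aeval η D ≠ 0) (G : ι → MvPolynomial τ (MvPolynomial σ k))
    (H : ∀ s : σ → k, (∀ P : MvPolynomial σ k, aeval η P = 0 → eval s P = 0) → eval s D ≠ 0 →
      ∃ y : τ → k, ∀ i, eval y (map (eval s) (G i)) = 0) :
    ∃ y : τ → L, ∀ i, eval y (map (aeval η : MvPolynomial σ k →ₐ[k] L).toRingHom (G i)) = 0 := by
  classical
  by_contra hcon
  push Not at hcon
  let g : ι → MvPolynomial τ L := fun i => map (aeval η : MvPolynomial σ k →ₐ[k] L).toRingHom (G i)
  have h1 : (1 : MvPolynomial τ L) ∈ Ideal.span (Set.range g) := by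
    have h2 : (Ideal.span (Set.range g)).radical = ⊤ := by
      rw [← vanishingIdeal_zeroLocus_eq_radical (K := L)]
      have h3 : zeroLocus L (Ideal.span (Set.range g)) = ∅ := by
        rw [Set.eq_empty_iff_forall_notMem]
        intro y hy
        obtain ⟨i, hi⟩ := hcon y
        apply hi
        have := (mem_zeroLocus_iff.mp hy) (g i) (Ideal.subset_span ⟨i, rfl⟩)
        rw [← coe_aeval_eq_eval]
        exact this
      rw [h3, vanishingIdeal_empty]
    rw [Ideal.radical_eq_top] at h2
    rw [h2]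
    trivial
  obtain ⟨c, hc⟩ := Ideal.mem_span_range_iff_exists_fun.mp h1
  -- specialise the coefficients
  let x : σ ⊕ (Σ i : ι, (c i).support) → L :=
    Sum.elim η (fun im => coeff (im.2 : τ →₀ ℕ) (c im.1))
  have hren : ∀ p : MvPolynomial σ k, aeval x (rename Sum.inl p) = aeval η p := by
    intro p
    rw [aeval_rename]
    rfl
  obtain ⟨y, hy1, hy2⟩ := exists_point x (rename Sum.inl D) (by rw [hren]; exact hD)
  let s : σ → k := fun p => y (Sum.inl p)
  have hs : ∀ p : MvPolynomial σ k, eval y (rename Sum.inl p) = eval s p := by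
    intro p
    rw [eval_rename]
    rfl
  obtain ⟨z, hz⟩ := H s (by
    intro P hP
    rw [← hs]
    apply hy1
    rw [hren, hP]) (by rwa [← hs])
  let c2 : ι → MvPolynomial τ (MvPolynomial (σ ⊕ (Σ i : ι, (c i).support)) k) := fun i =>
    ∑ m : (c i).support, monomial (m : τ →₀ ℕ) (X (Sum.inr ⟨i, m⟩))
  let G2 : ι → MvPolynomial τ (MvPolynomial (σ ⊕ (Σ i : ι, (c i).support)) k) := fun i =>
    map (rename Sum.inl : MvPolynomial σ k →ₐ[k] _).toRingHom (G i)
  let E : MvPolynomial τ (MvPolynomial (σ ⊕ (Σ i : ι, (c i).support)) k) :=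
    ∑ i, c2 i * G2 i - 1
  have hc2 : ∀ i, map (aeval x : MvPolynomial (σ ⊕ (Σ i : ι, (c i).support)) k →ₐ[k] L).toRingHom
      (c2 i) = c i := by
    intro i
    have e1 : ∑ m : (c i).support, monomial (m : τ →₀ ℕ) (coeff (m : τ →₀ ℕ) (c i)) = c i := by
      rw [Finset.sum_coe_sort (c i).support (fun m => monomial m (coeff m (c i)))]
      exact support_sum_monomial_coeff (c i)
    simp only [c2]
    rw [map_sum]
    refine Eq.trans ?_ e1
    refine Finset.sum_congr rfl fun m _ => ?_
    rw [map_monomial]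
    congr 1
    exact aeval_X _ _
  have hG2 : ∀ i, map (aeval x : MvPolynomial (σ ⊕ (Σ i : ι, (c i).support)) k →ₐ[k] L).toRingHom
      (G2 i) = g i := by
    intro i
    have e1 : (aeval x : MvPolynomial (σ ⊕ (Σ i : ι, (c i).support)) k →ₐ[k] L).toRingHom.comp
        (rename Sum.inl : MvPolynomial σ k →ₐ[k] _).toRingHom =
        (aeval η : MvPolynomial σ k →ₐ[k] L).toRingHom := RingHom.ext hren
    simp only [G2, g]
    rw [map_map, e1]
  have hE : map (aeval x : MvPolynomial (σ ⊕ (Σ i : ι, (c i).support)) k →ₐ[k] L).toRingHom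
      E = 0 := by
    change map _ (∑ i, c2 i * G2 i - 1) = 0
    rw [map_sub, map_sum, map_one, sub_eq_zero, ← hc]
    refine Finset.sum_congr rfl fun i _ => ?_
    rw [map_mul, hc2, hG2]
  have hE' : map (eval y) E = 0 := by
    ext1 m
    rw [coeff_map, coeff_zero]
    apply hy1
    have := congrArg (coeff m) hE
    rw [coeff_map, coeff_zero] at this
    exact this
  have h5 := congrArg (eval z) hE'
  change eval z (map (eval y) (∑ i, c2 i * G2 i - 1)) = _ at h5
  rw [map_sub, map_sum, map_sub, map_sum, map_one, map_one, map_zero] at h5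
  have h6 : ∀ i, eval z (map (eval y) (G2 i)) = 0 := by
    intro i
    have e1 : (eval y).comp (rename Sum.inl : MvPolynomial σ k →ₐ[k] _).toRingHom = eval s :=
      RingHom.ext hs
    rw [← hz i]
    simp only [G2]
    rw [map_map, e1]
  have h7 : ∑ i, eval z (map (eval y) (c2 i * G2 i)) = 0 := by
    apply Finset.sum_eq_zero
    intro i _
    rw [map_mul, map_mul, h6, mul_zero]
  rw [h7, zero_sub] at h5
  exact one_ne_zero (neg_eq_zero.mp h5)

section system

variable (k : Type) [Field k] (N d : ℕ)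

/-- the unknowns of the system: a matrix, an inverse of its determinant, and multipliers -/
abbrev Un (N : ℕ) : Type := (Fin (N + 1) × Fin (N + 1)) ⊕ (Unit ⊕ (Fin (N + 1) × Fin (N + 1)))

/-- the unknown matrix -/
def AMx {R : Type} (N : ℕ) (y : Un N → R) : Matrix (Fin (N + 1)) (Fin (N + 1)) R :=
  Matrix.of fun i j => y (Sum.inl (i, j))

/-- the entry `(i, j)` of `A - A_00 • 1` -/
def dev {R : Type} [CommRing R] {N : ℕ} (A : Matrix (Fin (N + 1)) (Fin (N + 1)) R)
    (ij : Fin (N + 1) × Fin (N + 1)) : R := A ij.1 ij.2 - if ij.1 = ij.2 then A 0 0 else 0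

/-- the equations of a nonscalar matrix stabilising the generic vector -/
def sysG : Ix N d ⊕ (Unit ⊕ Unit) → MvPolynomial (Un N) (SS k N d)
  | Sum.inl p => actT (AMx N (X : Un N → MvPolynomial (Un N) (SS k N d))) (fun q => C (X q)) p -
      C (X p)
  | Sum.inr (Sum.inl _) => X (Sum.inr (Sum.inl ())) *
      (AMx N (X : Un N → MvPolynomial (Un N) (SS k N d))).det - 1
  | Sum.inr (Sum.inr _) => ∑ ij, X (Sum.inr (Sum.inr ij)) *
      dev (AMx N (X : Un N → MvPolynomial (Un N) (SS k N d))) ij - 1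

variable {k N d}

theorem map_AMx {R S : Type} (φ : R → S) (y : Un N → R) :
    (AMx N y).map φ = AMx N (fun u => φ (y u)) := rfl

theorem map_dev {R S : Type} [CommRing R] [CommRing S] (φ : R →+* S)
    (A : Matrix (Fin (N + 1)) (Fin (N + 1)) R) (ij : Fin (N + 1) × Fin (N + 1)) :
    φ (dev A ij) = dev (A.map φ) ij := by
  unfold dev
  rw [map_sub]
  split_ifs <;> simp

theorem sys_iff {R : Type} [CommRing R] (φ : SS k N d →+* R) (y : Un N → R) :
    (∀ i, eval y (map φ (sysG k N d i)) = 0) ↔
      (actT (AMx N y) (fun p => φ (X p)) = fun p => φ (X p)) ∧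
      y (Sum.inr (Sum.inl ())) * (AMx N y).det = 1 ∧
      ∑ ij, y (Sum.inr (Sum.inr ij)) * dev (AMx N y) ij = 1 := by
  let ψ : MvPolynomial (Un N) (SS k N d) →+* R := (eval y).comp (map φ)
  have hψX : ∀ u, ψ (X u) = y u := by
    intro u
    change eval y (map φ (X u)) = y u
    rw [map_X, eval_X]
  have hψC : ∀ P, ψ (C P) = φ P := by
    intro P
    change eval y (map φ (C P)) = φ P
    rw [map_C, eval_C]
  have hA : (AMx N (X : Un N → MvPolynomial (Un N) (SS k N d))).map ψ = AMx N y := by
    rw [map_AMx]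
    congr 1
    funext u
    exact hψX u
  have e1 : ∀ p, ψ (sysG k N d (Sum.inl p)) = actT (AMx N y) (fun q => φ (X q)) p - φ (X p) := by
    intro p
    change ψ (actT (AMx N (X : Un N → MvPolynomial (Un N) (SS k N d))) (fun q => C (X q)) p -
      C (X p)) = _
    rw [map_sub, hψC, map_actT, hA]
    simp only [hψC]
  have e2 : ψ (sysG k N d (Sum.inr (Sum.inl ()))) =
      y (Sum.inr (Sum.inl ())) * (AMx N y).det - 1 := by
    change ψ (X (Sum.inr (Sum.inl ())) *
      (AMx N (X : Un N → MvPolynomial (Un N) (SS k N d))).det - 1) = _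
    rw [map_sub, map_mul, hψX, map_one, RingHom.map_det, RingHom.mapMatrix_apply, hA]
  have e3 : ψ (sysG k N d (Sum.inr (Sum.inr ()))) =
      ∑ ij, y (Sum.inr (Sum.inr ij)) * dev (AMx N y) ij - 1 := by
    change ψ (∑ ij, X (Sum.inr (Sum.inr ij)) *
      dev (AMx N (X : Un N → MvPolynomial (Un N) (SS k N d))) ij - 1) = _
    rw [map_sub, map_sum, map_one]
    simp only [map_mul, hψX, map_dev, hA]
  constructor
  · intro h
    refine ⟨?_, ?_, ?_⟩
    · funext p
      have := (e1 p).symm.trans (h (Sum.inl p))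
      exact sub_eq_zero.mp this
    · exact sub_eq_zero.mp (e2.symm.trans (h (Sum.inr (Sum.inl ()))))
    · exact sub_eq_zero.mp (e3.symm.trans (h (Sum.inr (Sum.inr ()))))
  · rintro ⟨h1, h2, h3⟩ (p | (u | u))
    · refine (e1 p).trans ?_
      rw [h1, sub_self]
    · exact e2.trans (sub_eq_zero.mpr h2)
    · exact e3.trans (sub_eq_zero.mpr h3)

theorem dev_zero {R : Type} [CommRing R] (A : Matrix (Fin (N + 1)) (Fin (N + 1)) R)
    (h : ∀ ij, dev A ij = 0) : A = A 0 0 • 1 := by
  ext i j
  have := h (i, j)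
  unfold dev at this
  rw [Matrix.smul_apply, smul_eq_mul, Matrix.one_apply]
  rw [sub_eq_zero] at this
  rw [this]
  simp

theorem dev_scalar {R : Type} [CommRing R] (μ : R) (ij : Fin (N + 1) × Fin (N + 1)) :
    dev (μ • (1 : Matrix (Fin (N + 1)) (Fin (N + 1)) R)) ij = 0 := by
  unfold dev
  rw [Matrix.smul_apply, Matrix.smul_apply, Matrix.one_apply, Matrix.one_apply]
  simp

end system

/-- nondegeneracy at the generic point -/
theorem nz_generic {k L : Type} [Field k] [IsAlgClosed k] [Field L] [Algebra k L] {N d : ℕ}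
    (η : Ix N d → L) (D : SS k N d) (hD : aeval η D ≠ 0)
    (hDnz : ∀ c : Ix N d → k, eval c D ≠ 0 → NZ (tup c)) : NZ (tup η) := by
  classical
  intro x hx
  by_contra hne
  obtain ⟨i, hi⟩ : ∃ i, x i ≠ 0 := by
    by_contra hcon
    push Not at hcon
    exact hne (funext hcon)
  let z : Ix N d ⊕ Fin (N + 1) → L := Sum.elim η x
  -- the universal equations
  let F : Fin (N + 1) → MvPolynomial (Ix N d ⊕ Fin (N + 1)) k := fun j =>
    eval (fun l => X (Sum.inr l)) (tup (fun q : Ix N d =>
      (X (Sum.inl q) : MvPolynomial (Ix N d ⊕ Fin (N + 1)) k)) j)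
  have hF : ∀ {S : Type} [CommRing S] [Algebra k S] (w : Ix N d ⊕ Fin (N + 1) → S) (j),
      aeval w (F j) = eval (fun l => w (Sum.inr l)) (tup (fun q => w (Sum.inl q)) j) := by
    intro S _ _ w j
    have h1 := map_tup (aeval w : MvPolynomial (Ix N d ⊕ Fin (N + 1)) k →ₐ[k] S).toRingHom
      (fun q : Ix N d => (X (Sum.inl q) : MvPolynomial (Ix N d ⊕ Fin (N + 1)) k)) j
    have h2 : (fun p : Ix N d => (aeval w : MvPolynomial (Ix N d ⊕ Fin (N + 1)) k →ₐ[k] S).toRingHom
        (X (Sum.inl p))) = fun q => w (Sum.inl q) := by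
      funext q
      exact aeval_X _ _
    rw [h2] at h1
    rw [← h1, eval_map]
    change (aeval w : MvPolynomial (Ix N d ⊕ Fin (N + 1)) k →ₐ[k] S).toRingHom (eval _ _) = _
    have h3 := eval₂_comp_left (aeval w : MvPolynomial (Ix N d ⊕ Fin (N + 1)) k →ₐ[k] S).toRingHom
      (RingHom.id _) (fun l : Fin (N + 1) => (X (Sum.inr l) :
        MvPolynomial (Ix N d ⊕ Fin (N + 1)) k)) (tup (fun q : Ix N d =>
      (X (Sum.inl q) : MvPolynomial (Ix N d ⊕ Fin (N + 1)) k)) j)
    refine h3.trans ?_
    congr 1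
    funext l
    exact aeval_X _ _
  obtain ⟨y, hy1, hy2⟩ := exists_point z (rename Sum.inl D * X (Sum.inr i)) (by
    rw [map_mul, aeval_rename, aeval_X]
    exact mul_ne_zero hD hi)
  rw [map_mul, eval_rename, eval_X] at hy2
  have h1 := hDnz _ (left_ne_zero_of_mul hy2) (fun l => y (Sum.inr l)) (by
    intro j
    have h2 := hy1 (F j) (by
      rw [hF]
      exact hx j)
    rw [← coe_aeval_eq_eval] at h2
    have h3 := hF y j
    change aeval y (F j) = 0 at h2
    rw [h2] at h3
    exact h3.symm)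
  exact (right_ne_zero_of_mul hy2) (congrFun h1 i)

end

end Pool.Agent.W512.ML
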