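import Pool.Agent.W512.ML.Free

/-!
Every hypersurface (and the whole space) contains a point with trivial stabiliser.
-/

open MvPolynomial

namespace Pool.Agent.W512.ML

open Pool.Agent.Helper819.Dyn Pool.Agent.Helper819.Apolar

noncomputable section

set_option linter.unusedSectionVars false

variable {N d : ℕ}

theorem no_stab {L : Type} [Field L] [IsAlgClosed L] [CharZero L] (hN : 2 ≤ N) (hd : 2 ≤ d)
    {η : Ix N d → L} (hη : NZ (tup η)) (ω : (Ix N d → L) →ₗ[L] L)
    (hdef : ∀ v, ω v = 0 → ∃ φ : L →+* DualNumber L, (∀ a, (φ a).fst = a) ∧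
      ∀ p, φ (η p) = algebraMap L (DualNumber L) (η p) +
        DualNumber.eps * algebraMap L (DualNumber L) (v p))
    {A : Matrix (Fin (N + 1)) (Fin (N + 1)) L} (hA : A.det ≠ 0) (hAη : actT A η = η) :
    ∃ μ : L, A = μ • 1 := by
  by_contra hcon
  push Not at hcon
  obtain ⟨v, hv, hY⟩ := rank_two hN hd hη hA hAη hcon ω
  obtain ⟨φ, h1, h2⟩ := hdef v hv
  have hAu : IsUnit A.det := isUnit_iff_ne_zero.mpr hA
  let B : Matrix (Fin (N + 1)) (Fin (N + 1)) L := A.map fun a => (φ a).snd
  have hφ : ∀ a, φ a = algebraMap L (DualNumber L) a +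
      DualNumber.eps * algebraMap L (DualNumber L) (φ a).snd := by
    intro a
    apply TrivSqZeroExt.ext
    · rw [fst_form, h1]
    · rw [snd_form]
  have hmap : A.map φ = A.map (algebraMap L (DualNumber L)) *
      oneEps (DualNumber.eps : DualNumber L) (A⁻¹ * B) := by
    unfold oneEps
    rw [mul_add, mul_one, Matrix.mul_smul, ← Matrix.map_mul, ← Matrix.mul_assoc,
      Matrix.mul_nonsing_inv _ hAu, one_mul]
    ext1 i j
    rw [Matrix.map_apply, hφ]
    rfl
  have h3 : ∀ p, actT (A.map φ) (fun q => φ (η q)) p = φ (η p) := by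
    intro p
    rw [← map_actT, hAη]
  have h4 : (fun q => φ (η q)) = (fun q => algebraMap L (DualNumber L) (η q)) +
      (DualNumber.eps : DualNumber L) • fun q => algebraMap L (DualNumber L) (v q) := by
    funext q
    exact h2 q
  have h5 : ∀ w : Ix N d → L, actT (A.map (algebraMap L (DualNumber L)))
      (fun p => algebraMap L (DualNumber L) (w p)) =
        fun p => algebraMap L (DualNumber L) (actT A w p) := by
    intro w
    funext p
    exact (map_actT (algebraMap L (DualNumber L)) A w p).symm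
  have h6 : actT (A.map (algebraMap L (DualNumber L))) (fun q => φ (η q)) =
      fun p => algebraMap L (DualNumber L) (η p) +
        DualNumber.eps * algebraMap L (DualNumber L) (actT A v p) := by
    rw [h4, actT_add, actT_smul, h5, h5, hAη]
    rfl
  apply hY (-(A⁻¹ * B))
  funext p
  have h7 := h3 p
  rw [hmap, ← actT_actT, h6, actT_eps' _ DualNumber.eps_mul_eps, h2] at h7
  have h8 := congrArg TrivSqZeroExt.snd h7
  rw [snd_form, snd_form] at h8
  have h9 : Helper819.Dyn.xi (-(A⁻¹ * B)) η = -Helper819.Dyn.xi (A⁻¹ * B) η :=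
    map_neg (xiL η) (A⁻¹ * B)
  rw [h9, Pi.sub_apply, Pi.neg_apply]
  linear_combination h8

/-- The generic point of a hypersurface, with deformations. -/
theorem exists_generic {k : Type} [Field k] [CharZero k] (h : SS k N d)
    (hp : (Ideal.span {h}).IsPrime) :
    ∃ (L : Type) (_ : Field L) (_ : IsAlgClosed L) (_ : CharZero L) (_ : Algebra k L)
      (η : Ix N d → L), (∀ P : SS k N d, aeval η P = 0 ↔ h ∣ P) ∧
      ∀ v : Ix N d → L, ∑ p, v p * aeval η (pderiv p h) = 0 →
        ∃ φ : L →+* DualNumber L, (∀ a, (φ a).fst = a) ∧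
          ∀ p, φ (η p) = algebraMap L (DualNumber L) (η p) +
            DualNumber.eps * algebraMap L (DualNumber L) (v p) := by
  let K0 := FractionRing (SS k N d ⧸ Ideal.span {h})
  let L := AlgebraicClosure K0
  let q : SS k N d →ₐ[k] SS k N d ⧸ Ideal.span {h} := Ideal.Quotient.mkₐ k _
  let j : (SS k N d ⧸ Ideal.span {h}) →ₐ[k] L :=
    IsScalarTower.toAlgHom k (SS k N d ⧸ Ideal.span {h}) L
  have hj : Function.Injective j := by
    intro a b hab
    apply IsFractionRing.injective (SS k N d ⧸ Ideal.span {h}) K0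
    apply (algebraMap K0 L).injective
    exact hab
  let η : Ix N d → L := fun p => j (q (X p))
  have hη : ∀ P : SS k N d, aeval η P = j (q P) := by
    intro P
    have : (aeval η : SS k N d →ₐ[k] L) = j.comp q := by
      apply MvPolynomial.algHom_ext
      intro p
      exact aeval_X _ _
    rw [this]
    rfl
  have hη0 : ∀ P : SS k N d, aeval η P = 0 ↔ h ∣ P := by
    intro P
    rw [hη, map_eq_zero_iff _ hj, ← Ideal.mem_span_singleton]
    exact Ideal.Quotient.eq_zero_iff_mem
  have hchar0 : CharZero K0 := charZero_of_injective_algebraMap (algebraMap k K0).injective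
  have hchar : CharZero L := charZero_of_injective_algebraMap (algebraMap k L).injective
  refine ⟨L, inferInstance, inferInstance, hchar, inferInstance, η, hη0, fun v hv => ?_⟩
  let ψ : SS k N d →ₐ[k] DualNumber L := aeval (fun p => algebraMap L (DualNumber L) (η p) +
      DualNumber.eps * algebraMap L (DualNumber L) (v p))
  have hψ : ∀ P, ψ P = algebraMap L (DualNumber L) (aeval η P) + DualNumber.eps *
      algebraMap L (DualNumber L) (∑ p, v p * aeval η (pderiv p P)) := fun P => aeval_dual η v P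
  have hker : ∀ P ∈ Ideal.span {h}, ψ.toRingHom P = 0 := by
    intro P hP
    obtain ⟨g, rfl⟩ := Ideal.mem_span_singleton.mp hP
    change ψ (h * g) = 0
    have h0 : aeval η h = 0 := (hη0 h).mpr dvd_rfl
    rw [hψ]
    have h1 : ∑ p, v p * aeval η (pderiv p (h * g)) = 0 := by
      have h2 : ∀ p, v p * aeval η (pderiv p (h * g)) =
          aeval η g * (v p * aeval η (pderiv p h)) := by
        intro p
        rw [Derivation.leibniz, map_add, smul_eq_mul, smul_eq_mul, map_mul, map_mul, h0]
        ring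
      simp_rw [h2]
      rw [← Finset.mul_sum, hv, mul_zero]
    rw [h1, map_mul, h0]
    simp
  let g0 : (SS k N d ⧸ Ideal.span {h}) →+* DualNumber L :=
    Ideal.Quotient.lift (Ideal.span {h}) ψ.toRingHom hker
  have hg0 : ∀ P, g0 (q P) = ψ P := fun P => Ideal.Quotient.lift_mk _ _ hker
  have hg0f : ∀ a, (g0 a).fst = j a := by
    intro a
    obtain ⟨P, rfl⟩ := Ideal.Quotient.mk_surjective a
    change (g0 (q P)).fst = j (q P)
    rw [hg0, hψ, fst_form, hη]
  have hunit : ∀ y : nonZeroDivisors (SS k N d ⧸ Ideal.span {h}), IsUnit (g0 y) := by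
    rintro ⟨y, hy⟩
    rw [TrivSqZeroExt.isUnit_iff_isUnit_fst]
    change IsUnit ((g0 y).fst)
    rw [hg0f, isUnit_iff_ne_zero, Ne, map_eq_zero_iff _ hj]
    exact nonZeroDivisors.ne_zero hy
  let g : K0 →+* DualNumber L :=
    IsLocalization.lift (M := nonZeroDivisors (SS k N d ⧸ Ideal.span {h})) hunit
  have hg : ∀ a, g (algebraMap _ K0 a) = g0 a := fun a => IsLocalization.lift_eq hunit a
  have hgf : ∀ a, (g a).fst = algebraMap K0 L a := by
    have h2 : (TrivSqZeroExt.fstHom L L L).toRingHom.comp g = algebraMap K0 L := by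
      apply IsLocalization.ringHom_ext (nonZeroDivisors (SS k N d ⧸ Ideal.span {h}))
      refine RingHom.ext fun a => ?_
      change (g (algebraMap _ K0 a)).fst = algebraMap K0 L (algebraMap _ K0 a)
      rw [hg, hg0f]
      rfl
    intro a
    exact congrFun (congrArg DFunLike.coe h2) a
  have hsep : Algebra.IsSeparable K0 L := inferInstance
  have het : Algebra.FormallyEtale K0 L := Algebra.FormallyEtale.of_isSeparable K0 L
  obtain ⟨φ, h1, h2⟩ := ext_of_smooth g hgf
  refine ⟨φ, h1, fun p => ?_⟩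
  have h3 : η p = algebraMap K0 L (algebraMap _ K0 (q (X p))) := rfl
  rw [h3, h2, hg, hg0]
  exact aeval_X _ _

/-- Every hypersurface (or the whole space) contains a nondegenerate point with trivial
stabiliser. -/
theorem exists_free {k : Type} [Field k] [IsAlgClosed k] [CharZero k] (hN : 2 ≤ N) (hd : 2 ≤ d)
    (h : SS k N d) (hp : (Ideal.span {h}).IsPrime) (D : SS k N d) (hD : ¬ h ∣ D)
    (hDnz : ∀ c : Ix N d → k, eval c D ≠ 0 → NZ (tup c)) :
    ∃ s : Ix N d → k, eval s h = 0 ∧ eval s D ≠ 0 ∧
      ∀ A : Matrix (Fin (N + 1)) (Fin (N + 1)) k, A.det ≠ 0 → actT A s = s →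
        ∃ μ : k, A = μ • 1 := by
  classical
  by_contra hcon
  push Not at hcon
  obtain ⟨L, _, _, _, _, η, hη, hdef⟩ := exists_generic h hp
  have hηD : aeval η D ≠ 0 := fun h0 => hD ((hη D).mp h0)
  have hnz : NZ (tup η) := nz_generic η D hηD hDnz
  obtain ⟨y, hy⟩ := transfer η D hηD (sysG k N d) (by
    intro s hs hsD
    obtain ⟨A, hA, hAs, hns⟩ := hcon s (hs h ((hη h).mpr dvd_rfl)) hsD
    obtain ⟨ij0, hij0⟩ : ∃ ij, dev A ij ≠ 0 := by
      by_contra h0
      push Not at h0
      exact hns _ (dev_zero A h0)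
    refine ⟨Sum.elim (fun ij => A ij.1 ij.2) (Sum.elim (fun _ => A.det⁻¹)
      (fun ij => if ij = ij0 then (dev A ij)⁻¹ else 0)), ?_⟩
    rw [sys_iff]
    have hA' : AMx N (Sum.elim (fun ij => A ij.1 ij.2) (Sum.elim (fun _ => A.det⁻¹)
      (fun ij => if ij = ij0 then (dev A ij)⁻¹ else 0))) = A := rfl
    rw [hA']
    refine ⟨?_, ?_, ?_⟩
    · simp only [eval_X]
      exact hAs
    · simp only [Sum.elim_inr, Sum.elim_inl]
      exact inv_mul_cancel₀ hA
    · simp only [Sum.elim_inr]
      rw [Finset.sum_eq_single ij0]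
      · rw [if_pos rfl, inv_mul_cancel₀ hij0]
      · intro b _ hb
        rw [if_neg hb, zero_mul]
      · intro h0
        exact absurd (Finset.mem_univ _) h0)
  rw [sys_iff] at hy
  obtain ⟨h1, h2, h3⟩ := hy
  have hX : (fun p : Ix N d => (aeval η : SS k N d →ₐ[k] L).toRingHom (X p)) = η := by
    funext p
    exact aeval_X _ _
  rw [hX] at h1
  let ω : (Ix N d → L) →ₗ[L] L :=
    { toFun := fun v => ∑ p, v p * aeval η (pderiv p h)
      map_add' := by
        intro v w
        simp only [Pi.add_apply, add_mul, Finset.sum_add_distrib]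
      map_smul' := by
        intro r v
        simp only [Pi.smul_apply, smul_eq_mul, Finset.mul_sum, mul_assoc, RingHom.id_apply] }
  obtain ⟨μ, hμ⟩ := no_stab hN hd hnz ω (fun v hv => hdef v hv) (A := AMx N y)
    (right_ne_zero_of_mul (by rw [h2]; exact one_ne_zero)) h1
  have h4 : ∑ ij, y (Sum.inr (Sum.inr ij)) * dev (AMx N y) ij = 0 := by
    apply Finset.sum_eq_zero
    intro ij _
    rw [hμ, dev_scalar, mul_zero]
  rw [h4] at h3
  exact zero_ne_one h3

end

end Pool.Agent.W512.ML
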