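import Pool.Agent.W512.ML.Act
import Pool.Agent.W512.ML.Defs

/-!
The local rings as rings of rational functions in the coefficients.
-/

open MvPolynomial

namespace Pool.Agent.W512.ML

open Pool.Agent.Helper819.Dyn

noncomputable section

set_option linter.unusedSectionVars false

/-- rational functions in the coefficients of a tuple of forms of degree `d` -/
abbrev KK (k : Type) [Field k] (N d : ℕ) : Type := FractionRing (SS k N d)

variable {k : Type} [Field k] {N d : ℕ}

/-- the inclusion of the polynomials in the rational functions -/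
def jj (k : Type) [Field k] (N d : ℕ) : SS k N d →ₐ[k] KK k N d :=
  IsScalarTower.toAlgHom k (SS k N d) (KK k N d)

theorem jj_apply (P : SS k N d) : jj k N d P = algebraMap (SS k N d) (KK k N d) P := rfl

theorem jj_inj : Function.Injective (jj k N d) := IsFractionRing.injective (SS k N d) (KK k N d)

theorem jj_eq_zero {P : SS k N d} : jj k N d P = 0 ↔ P = 0 := map_eq_zero_iff _ jj_inj

/-- the rational function `P / Q` is invariant under the conjugation action -/
def InvPair (P Q : SS k N d) : Prop :=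
  ∀ A : Matrix (Fin (N + 1)) (Fin (N + 1)) k, A.det ≠ 0 → ∀ c : Ix N d → k,
    eval (actT A c) P * eval c Q = eval c P * eval (actT A c) Q

/-- The invariant rational functions which are regular at `f`. -/
def Oloc (f : Ix N d → k) : Subalgebra k (KK k N d) where
  carrier := {a | ∃ P Q : SS k N d, eval f Q ≠ 0 ∧ a = jj k N d P / jj k N d Q ∧ InvPair P Q}
  mul_mem' := by
    rintro _ _ ⟨P, Q, hQ, rfl, h⟩ ⟨P', Q', hQ', rfl, h'⟩
    refine ⟨P * P', Q * Q', by rw [map_mul]; exact mul_ne_zero hQ hQ', ?_, fun A hA c => ?_⟩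
    · rw [map_mul, map_mul, div_mul_div_comm]
    · rw [map_mul, map_mul, map_mul, map_mul]
      linear_combination (eval (actT A c) P' * eval c Q') * h A hA c +
        (eval c P * eval (actT A c) Q) * h' A hA c
  add_mem' := by
    rintro _ _ ⟨P, Q, hQ, rfl, h⟩ ⟨P', Q', hQ', rfl, h'⟩
    have h0 : jj k N d Q ≠ 0 := by
      rw [Ne, jj_eq_zero]; rintro rfl; exact hQ (map_zero _)
    have h0' : jj k N d Q' ≠ 0 := by
      rw [Ne, jj_eq_zero]; rintro rfl; exact hQ' (map_zero _)
    refine ⟨P * Q' + Q * P', Q * Q', by rw [map_mul]; exact mul_ne_zero hQ hQ', ?_,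
      fun A hA c => ?_⟩
    · rw [map_add, map_mul, map_mul, map_mul, div_add_div _ _ h0 h0']
    · simp only [map_mul, map_add]
      linear_combination (eval (actT A c) Q' * eval c Q') * h A hA c +
        (eval c Q * eval (actT A c) Q) * h' A hA c
  algebraMap_mem' r := by
    refine ⟨C r, 1, by simp, ?_, fun A hA c => by simp⟩
    rw [map_one, div_one]
    exact (AlgHom.commutes (jj k N d) r).symm

theorem mem_Oloc {f : Ix N d → k} {a : KK k N d} : a ∈ Oloc f ↔
    ∃ P Q : SS k N d, eval f Q ≠ 0 ∧ a = jj k N d P / jj k N d Q ∧ InvPair P Q := Iff.rfl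

/-- The rational functions which are regular at `f`. -/
def Rloc (f : Ix N d → k) : Subalgebra k (KK k N d) where
  carrier := {a | ∃ P Q : SS k N d, eval f Q ≠ 0 ∧ a = jj k N d P / jj k N d Q}
  mul_mem' := by
    rintro _ _ ⟨P, Q, hQ, rfl⟩ ⟨P', Q', hQ', rfl⟩
    exact ⟨P * P', Q * Q', by rw [map_mul]; exact mul_ne_zero hQ hQ',
      by rw [map_mul, map_mul, div_mul_div_comm]⟩
  add_mem' := by
    rintro _ _ ⟨P, Q, hQ, rfl⟩ ⟨P', Q', hQ', rfl⟩
    have h0 : jj k N d Q ≠ 0 := by
      rw [Ne, jj_eq_zero]; rintro rfl; exact hQ (map_zero _)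
    have h0' : jj k N d Q' ≠ 0 := by
      rw [Ne, jj_eq_zero]; rintro rfl; exact hQ' (map_zero _)
    exact ⟨P * Q' + Q * P', Q * Q', by rw [map_mul]; exact mul_ne_zero hQ hQ',
      by rw [map_add, map_mul, map_mul, map_mul, div_add_div _ _ h0 h0']⟩
  algebraMap_mem' r := by
    refine ⟨C r, 1, by simp, ?_⟩
    rw [map_one, div_one]
    exact (AlgHom.commutes (jj k N d) r).symm

theorem mem_Rloc {f : Ix N d → k} {a : KK k N d} : a ∈ Rloc f ↔
    ∃ P Q : SS k N d, eval f Q ≠ 0 ∧ a = jj k N d P / jj k N d Q := Iff.rfl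

theorem Oloc_le_Rloc (f : Ix N d → k) : Oloc f ≤ Rloc f := by
  rintro a ⟨P, Q, hQ, rfl, _⟩
  exact ⟨P, Q, hQ, rfl⟩

theorem val_wd {f : Ix N d → k} {P Q P' Q' : SS k N d} (hQ : eval f Q ≠ 0)
    (hQ' : eval f Q' ≠ 0) (h : jj k N d P / jj k N d Q = jj k N d P' / jj k N d Q') :
    eval f P / eval f Q = eval f P' / eval f Q' := by
  have h0 : jj k N d Q ≠ 0 := by
    rw [Ne, jj_eq_zero]; rintro rfl; exact hQ (map_zero _)
  have h0' : jj k N d Q' ≠ 0 := by
    rw [Ne, jj_eq_zero]; rintro rfl; exact hQ' (map_zero _)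
  rw [div_eq_div_iff h0 h0', ← map_mul, ← map_mul] at h
  have h1 := congrArg (eval f) (jj_inj h)
  rw [map_mul, map_mul] at h1
  rw [div_eq_div_iff hQ hQ', h1]

theorem jj_ne {f : Ix N d → k} {Q : SS k N d} (hQ : eval f Q ≠ 0) : jj k N d Q ≠ 0 := by
  rw [Ne, jj_eq_zero]; rintro rfl; exact hQ (map_zero _)

open Classical in
/-- the value at `f` of a rational function -/
def val0 (f : Ix N d → k) (a : KK k N d) : k :=
  if h : ∃ PQ : SS k N d × SS k N d, eval f PQ.2 ≠ 0 ∧ a = jj k N d PQ.1 / jj k N d PQ.2 then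
    eval f h.choose.1 / eval f h.choose.2 else 0

theorem val0_eq {f : Ix N d → k} {a : KK k N d} {P Q : SS k N d} (hQ : eval f Q ≠ 0)
    (ha : a = jj k N d P / jj k N d Q) : val0 f a = eval f P / eval f Q := by
  have h : ∃ PQ : SS k N d × SS k N d, eval f PQ.2 ≠ 0 ∧ a = jj k N d PQ.1 / jj k N d PQ.2 :=
    ⟨(P, Q), hQ, ha⟩
  unfold val0
  rw [dif_pos h]
  exact val_wd h.choose_spec.1 hQ (by rw [← h.choose_spec.2, ha])

/-- the value at `f` of a rational function regular at `f` -/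
def valf (f : Ix N d → k) : Rloc f →ₐ[k] k where
  toFun a := val0 f a
  map_one' := by
    rw [val0_eq (P := 1) (Q := 1) (by simp) (by rw [map_one, div_one]; rfl)]
    simp
  map_mul' := by
    intro a b
    obtain ⟨P, Q, hQ, ha⟩ := a.2
    obtain ⟨P', Q', hQ', hb⟩ := b.2
    rw [val0_eq hQ ha, val0_eq hQ' hb, val0_eq (P := P * P') (Q := Q * Q')
      (by rw [map_mul]; exact mul_ne_zero hQ hQ')]
    · rw [map_mul, map_mul, div_mul_div_comm]
    · rw [map_mul, map_mul, ← div_mul_div_comm, ← ha, ← hb]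
      rfl
  map_zero' := by
    rw [val0_eq (P := 0) (Q := 1) (by simp) (by rw [map_zero, zero_div]; rfl)]
    simp
  map_add' := by
    intro a b
    obtain ⟨P, Q, hQ, ha⟩ := a.2
    obtain ⟨P', Q', hQ', hb⟩ := b.2
    rw [val0_eq hQ ha, val0_eq hQ' hb, val0_eq (P := P * Q' + Q * P') (Q := Q * Q')
      (by rw [map_mul]; exact mul_ne_zero hQ hQ')]
    · rw [map_add, map_mul, map_mul, map_mul, div_add_div _ _ hQ hQ']
    · rw [map_add, map_mul, map_mul, map_mul, ← div_add_div _ _ (jj_ne hQ) (jj_ne hQ'), ← ha, ← hb]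
      rfl
  commutes' := by
    intro r
    rw [val0_eq (P := C r) (Q := 1) (by simp)]
    · simp
    · rw [map_one, div_one]
      exact (AlgHom.commutes (jj k N d) r).symm

theorem valf_eq {f : Ix N d → k} (a : Rloc f) {P Q : SS k N d} (hQ : eval f Q ≠ 0)
    (h : (a : KK k N d) = jj k N d P / jj k N d Q) : valf f a = eval f P / eval f Q := by
  exact val0_eq hQ h

theorem isUnit_of_valf {f : Ix N d → k} (a : Rloc f) (h : valf f a ≠ 0) : IsUnit a := by
  obtain ⟨P, Q, hQ, ha⟩ := a.2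
  have h1 := valf_eq a hQ ha
  have hP : eval f P ≠ 0 := by
    intro h2
    rw [h2, zero_div] at h1
    exact h h1
  have h0 : jj k N d Q ≠ 0 := by
    rw [Ne, jj_eq_zero]; rintro rfl; exact hQ (map_zero _)
  have h0' : jj k N d P ≠ 0 := by
    rw [Ne, jj_eq_zero]; rintro rfl; exact hP (map_zero _)
  refine IsUnit.of_mul_eq_one ⟨jj k N d Q / jj k N d P, Q, P, hP, rfl⟩ ?_
  apply Subtype.ext
  change (a : KK k N d) * (jj k N d Q / jj k N d P) = 1
  rw [ha]
  field_simp

theorem isUnit_iff_valf {f : Ix N d → k} (a : Rloc f) : IsUnit a ↔ valf f a ≠ 0 := by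
  refine ⟨fun h => ?_, isUnit_of_valf a⟩
  exact (h.map (valf f)).ne_zero

instance (f : Ix N d → k) : IsLocalRing (Rloc f) := by
  apply IsLocalRing.of_nonunits_add
  intro a b ha hb
  rw [mem_nonunits_iff, isUnit_iff_valf, not_not] at *
  rw [map_add, ha, hb, add_zero]

theorem isUnit_Oloc {f : Ix N d → k} (a : Oloc f) :
    IsUnit a ↔ valf f ⟨a, Oloc_le_Rloc f a.2⟩ ≠ 0 := by
  constructor
  · intro h
    exact ((h.map (Subalgebra.inclusion (Oloc_le_Rloc f))).map (valf f)).ne_zero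
  · intro h
    obtain ⟨P, Q, hQ, ha, hPQ⟩ := a.2
    have h1 := valf_eq ⟨a, Oloc_le_Rloc f a.2⟩ hQ ha
    have hP : eval f P ≠ 0 := by
      intro h2
      rw [h2, zero_div] at h1
      exact h h1
    have h0 : jj k N d Q ≠ 0 := by
      rw [Ne, jj_eq_zero]; rintro rfl; exact hQ (map_zero _)
    have h0' : jj k N d P ≠ 0 := by
      rw [Ne, jj_eq_zero]; rintro rfl; exact hP (map_zero _)
    refine IsUnit.of_mul_eq_one ⟨jj k N d Q / jj k N d P, Q, P, hP, rfl, fun A hA c => ?_⟩ ?_
    · linear_combination - hPQ A hA c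
    apply Subtype.ext
    change (a : KK k N d) * (jj k N d Q / jj k N d P) = 1
    rw [ha]
    field_simp

instance (f : Ix N d → k) : IsLocalRing (Oloc f) := by
  apply IsLocalRing.of_nonunits_add
  intro a b ha hb
  rw [mem_nonunits_iff, isUnit_Oloc, not_not] at *
  have : (⟨((a + b : Oloc f) : KK k N d), Oloc_le_Rloc f (a + b).2⟩ : Rloc f) =
      ⟨a, Oloc_le_Rloc f a.2⟩ + ⟨b, Oloc_le_Rloc f b.2⟩ := rfl
  rw [this, map_add, ha, hb, add_zero]

end

end Pool.Agent.W512.ML
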