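import Pool.Agent.W512.ML.Der

/-!
Differentials of the elements of the local ring of the quotient.
-/

open MvPolynomial

namespace Pool.Agent.W512.ML

open Pool.Agent.Helper819.Dyn Pool.Agent.Helper819.Apolar

noncomputable section

set_option linter.unusedSectionVars false
set_option synthInstance.maxHeartbeats 400000

theorem krull_mem {R M : Type*} [CommRing R] [IsLocalRing R] [IsNoetherianRing R]
    [AddCommGroup M] [Module R M] [Module.Finite R M] (𝓜 : Submodule R M) (x : M)
    (h : ∀ n : ℕ, x ∈ 𝓜 ⊔ IsLocalRing.maximalIdeal R ^ n • (⊤ : Submodule R M)) : x ∈ 𝓜 := by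
  have hne : IsLocalRing.maximalIdeal R ≠ ⊤ := Ideal.IsPrime.ne_top inferInstance
  have h1 := Ideal.iInf_pow_smul_eq_bot_of_isLocalRing (R := R)
    (M := M ⧸ 𝓜) (IsLocalRing.maximalIdeal R) hne
  have h2 : 𝓜.mkQ x ∈ ⨅ n : ℕ, IsLocalRing.maximalIdeal R ^ n • (⊤ : Submodule R (M ⧸ 𝓜)) := by
    rw [Submodule.mem_iInf]
    intro n
    have h3 := Submodule.mem_map_of_mem (f := 𝓜.mkQ) (h n)
    rw [Submodule.map_sup, Submodule.map_smul'', Submodule.map_top, Submodule.range_mkQ] at h3
    have h4 : Submodule.map 𝓜.mkQ 𝓜 = ⊥ := by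
      rw [eq_bot_iff, Submodule.map_le_iff_le_comap]
      intro x hx
      rw [Submodule.mem_comap, Submodule.mem_bot]
      exact (Submodule.Quotient.mk_eq_zero _).mpr hx
    rwa [h4, bot_sup_eq] at h3
  rw [h1, Submodule.mem_bot] at h2
  exact (Submodule.Quotient.mk_eq_zero _).mp h2

variable {k : Type} [Field k] {N d : ℕ}

/-- the maximal ideal of a point -/
def pt (f : Ix N d → k) : Ideal (SS k N d) := RingHom.ker (eval f)

instance (f : Ix N d → k) : (pt f).IsPrime := RingHom.ker_isPrime _

/-- polynomials as elements of the local ring -/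
def toR (f : Ix N d → k) : SS k N d →+* Rloc f :=
  (jj k N d).toRingHom.codRestrict (Rloc f).toSubring (fun P => jj_mem f P)

theorem toR_coe (f : Ix N d → k) (P : SS k N d) : ((toR f P : Rloc f) : KK k N d) = jj k N d P :=
  rfl

theorem valf_toR (f : Ix N d → k) (P : SS k N d) : valf f (toR f P) = eval f P := val0_jj f P

instance (f : Ix N d → k) : IsNoetherianRing (Rloc f) := by
  have hu : ∀ y : (pt f).primeCompl, IsUnit (toR f y) := by
    rintro ⟨y, hy⟩
    rw [isUnit_iff_valf, valf_toR]
    exact hy
  let φ : Localization.AtPrime (pt f) →+* Rloc f :=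
    IsLocalization.lift (M := (pt f).primeCompl) hu
  have h1 : IsNoetherianRing (Localization.AtPrime (pt f)) :=
    IsLocalization.isNoetherianRing (pt f).primeCompl _ inferInstance
  refine isNoetherianRing_of_surjective _ _ φ ?_
  rintro ⟨a, P, Q, hQ, rfl⟩
  refine ⟨IsLocalization.mk' _ P (⟨Q, hQ⟩ : (pt f).primeCompl), ?_⟩
  rw [IsLocalization.lift_mk'_spec]
  apply Subtype.ext
  change jj k N d P = jj k N d Q * (jj k N d P / jj k N d Q)
  rw [mul_div_cancel₀ _ (jj_ne hQ)]

theorem mem_maxR {f : Ix N d → k} (a : Rloc f) :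
    a ∈ IsLocalRing.maximalIdeal (Rloc f) ↔ valf f a = 0 := by
  rw [IsLocalRing.mem_maximalIdeal, mem_nonunits_iff, isUnit_iff_valf, not_not]

theorem mem_maxO {f : Ix N d → k} (a : Oloc f) :
    a ∈ IsLocalRing.maximalIdeal (Oloc f) ↔ val0 f a = 0 := by
  rw [IsLocalRing.mem_maximalIdeal, mem_nonunits_iff, isUnit_Oloc, not_not]
  rfl

/-- the gradient -/
def grd (f : Ix N d → k) (a : Rloc f) : Ix N d → Rloc f := fun p => ⟨pdK p a, pdK_mem a.2 p⟩

theorem grd_add (f : Ix N d → k) (a b : Rloc f) : grd f (a + b) = grd f a + grd f b := by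
  funext p
  apply Subtype.ext
  exact map_add (pdK p) (a : KK k N d) b

theorem grd_mul (f : Ix N d → k) (a b : Rloc f) : grd f (a * b) = a • grd f b + b • grd f a := by
  funext p
  apply Subtype.ext
  exact Derivation.leibniz (pdK p) (a : KK k N d) b

theorem grd_algebraMap (f : Ix N d → k) (r : k) : grd f (algebraMap k (Rloc f) r) = 0 := by
  funext p
  apply Subtype.ext
  exact Derivation.map_algebraMap (pdK p) r

theorem grd_sum (f : Ix N d → k) {ι : Type*} (s : Finset ι) (a : ι → Rloc f) :
    grd f (∑ i ∈ s, a i) = ∑ i ∈ s, grd f (a i) := by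
  classical
  induction s using Finset.induction_on with
  | empty =>
    rw [Finset.sum_empty, Finset.sum_empty]
    have := grd_algebraMap f (0 : k)
    rwa [map_zero] at this
  | insert i s hi ih =>
    rw [Finset.sum_insert hi, Finset.sum_insert hi, grd_add, ih]

/-- elements of the local ring of the quotient as elements of the big local ring -/
def incl (f : Ix N d → k) : Oloc f →ₐ[k] Rloc f := Subalgebra.inclusion (Oloc_le_Rloc f)

theorem incl_coe (f : Ix N d → k) (a : Oloc f) : ((incl f a : Rloc f) : KK k N d) = a := rfl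

theorem grad_mem (f : Ix N d → k) {m : ℕ} (y : Fin m → Oloc f)
    (hgen : IsLocalRing.maximalIdeal (Oloc f) = Ideal.span (Set.range y)) (a : Oloc f) :
    grd f (incl f a) ∈ Submodule.span (Rloc f) (Set.range fun i => grd f (incl f (y i))) := by
  set 𝓜 := Submodule.span (Rloc f) (Set.range fun i => grd f (incl f (y i))) with h𝓜
  set 𝔪 := IsLocalRing.maximalIdeal (Rloc f) with h𝔪
  have hy : ∀ i, incl f (y i) ∈ 𝔪 := by
    intro i
    rw [h𝔪, mem_maxR]
    have h1 : y i ∈ IsLocalRing.maximalIdeal (Oloc f) := by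
      rw [hgen]
      exact Ideal.subset_span ⟨i, rfl⟩
    rw [mem_maxO] at h1
    exact h1
  have key : ∀ (n : ℕ) (a : Oloc f), grd f (incl f a) ∈ 𝓜 ⊔ 𝔪 ^ n • (⊤ : Submodule (Rloc f) _) := by
    intro n
    induction n with
    | zero =>
      intro a
      rw [pow_zero, Ideal.one_eq_top, Submodule.top_smul]
      exact Submodule.mem_sup_right trivial
    | succ n ih =>
      intro a
      have h1 : a - algebraMap k (Oloc f) (val0 f a) ∈ IsLocalRing.maximalIdeal (Oloc f) := by
        rw [mem_maxO]
        have h2 := map_sub (valf f) (incl f a) (algebraMap k (Rloc f) (val0 f a))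
        rw [AlgHom.commutes] at h2
        change val0 f _ = val0 f _ - _ at h2
        change val0 f _ = 0
        refine h2.trans ?_
        exact sub_self _
      rw [hgen, Ideal.mem_span_range_iff_exists_fun] at h1
      obtain ⟨c, hc⟩ := h1
      have h2 : incl f a = (∑ i, incl f (c i) * incl f (y i)) +
          algebraMap k (Rloc f) (val0 f a) := by
        have h3 : a = (∑ i, c i * y i) + algebraMap k (Oloc f) (val0 f a) := by
          rw [hc]; ring
        conv_lhs => rw [h3]
        rw [map_add, map_sum, AlgHom.commutes]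
        simp only [map_mul]
      rw [h2, grd_add, grd_algebraMap, add_zero, grd_sum]
      refine Submodule.sum_mem _ fun i _ => ?_
      rw [grd_mul]
      refine Submodule.add_mem _ (Submodule.mem_sup_left (Submodule.smul_mem _ _
        (Submodule.subset_span ⟨i, rfl⟩))) ?_
      obtain ⟨u, hu, w, hw, huw⟩ := Submodule.mem_sup.mp (ih (c i))
      rw [← huw, smul_add]
      refine Submodule.add_mem _ (Submodule.mem_sup_left (Submodule.smul_mem _ _ hu))
        (Submodule.mem_sup_right ?_)
      rw [pow_succ', ← smul_smul]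
      exact Submodule.smul_mem_smul (hy i) hw
  exact krull_mem 𝓜 _ fun n => key n a

end

end Pool.Agent.W512.ML
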