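import Pool.Agent.W512.ML.Tau
import Pool.Agent.W347.ML.Count

/-!
Automorphisms act on the normal space of the orbit without being pseudo-reflections.
-/

open MvPolynomial

namespace Pool.Agent.W512.ML

open Pool.Agent.Helper819.Dyn Pool.Agent.Helper819.Apolar

noncomputable section

set_option linter.unusedSectionVars false

variable {K : Type} [Field K] {N d : ℕ}

/-- equivariance of the infinitesimal action -/
theorem actT_xi (A B : Matrix (Fin (N + 1)) (Fin (N + 1)) K) (hAB : A * B = 1)
    (Y : Matrix (Fin (N + 1)) (Fin (N + 1)) K) (c : Ix N d → K) :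
    actT A (Helper819.Dyn.xi Y c) = Helper819.Dyn.xi (B * Y * A) (actT A c) := by
  have h1 : (oneEps (DualNumber.eps : DualNumber K) Y) * A.map (algebraMap K (DualNumber K)) =
      A.map (algebraMap K (DualNumber K)) * oneEps (DualNumber.eps : DualNumber K) (B * Y * A) := by
    unfold oneEps
    rw [add_mul, mul_add, one_mul, mul_one, Matrix.smul_mul, Matrix.mul_smul,
      ← Matrix.map_mul, ← Matrix.map_mul, ← Matrix.mul_assoc, ← Matrix.mul_assoc, hAB, one_mul]
  have h2 := actT_actT (oneEps (DualNumber.eps : DualNumber K) Y)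
    (A.map (algebraMap K (DualNumber K))) (fun p => algebraMap K (DualNumber K) (c p))
  have h3 := actT_actT (A.map (algebraMap K (DualNumber K)))
    (oneEps (DualNumber.eps : DualNumber K) (B * Y * A)) (fun p => algebraMap K (DualNumber K) (c p))
  rw [h1, ← h3] at h2
  have h4 : actT (oneEps (DualNumber.eps : DualNumber K) Y)
      (fun p => algebraMap K (DualNumber K) (c p)) =
        (fun p => algebraMap K (DualNumber K) (c p)) +
          (DualNumber.eps : DualNumber K) • fun p =>
            algebraMap K (DualNumber K) (Helper819.Dyn.xi Y c p) := by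
    funext p
    exact actT_eps _ DualNumber.eps_mul_eps Y c p
  have h5 : ∀ v : Ix N d → K, actT (A.map (algebraMap K (DualNumber K)))
      (fun p => algebraMap K (DualNumber K) (v p)) =
        fun p => algebraMap K (DualNumber K) (actT A v p) := by
    intro v
    funext p
    exact (map_actT (algebraMap K (DualNumber K)) A v p).symm
  rw [h4, actT_add, actT_smul, h5, h5] at h2
  funext p
  have h6 := congrFun h2 p
  rw [actT_eps _ DualNumber.eps_mul_eps, Pi.add_apply, Pi.smul_apply, smul_eq_mul] at h6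
  have h7 := congrArg TrivSqZeroExt.snd h6
  rw [snd_form, snd_form] at h7
  exact h7

/-- the weights of a diagonal matrix -/
def wt (l : Fin (N + 1) → K) (p : Ix N d) : K :=
  (∏ j ∈ Finset.univ.erase p.1, l j) * ∏ j, l j ^ p.2.1 j

theorem adjugate_diagonal' (l : Fin (N + 1) → K) :
    (Matrix.diagonal l).adjugate = Matrix.diagonal fun i => ∏ j ∈ Finset.univ.erase i, l j := by
  rw [Matrix.adjugate_diagonal]

theorem actT_diagonal (l : Fin (N + 1) → K) (c : Ix N d → K) (p : Ix N d) :
    actT (Matrix.diagonal l) c p = wt l p * c p := by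
  unfold actT cf act
  rw [coeff_sum, adjugate_diagonal', Finset.sum_eq_single p.1]
  · rw [coeff_C_mul, Matrix.diagonal_apply_eq]
    have h1 : (fun a => ∑ m, C ((Matrix.diagonal l) a m) * (X m : MvPolynomial (Fin (N + 1)) K)) =
        fun a => C (l a) * X a := by
      funext a
      rw [Finset.sum_eq_single a]
      · rw [Matrix.diagonal_apply_eq]
      · intro b _ hb
        rw [Matrix.diagonal_apply_ne _ hb.symm, map_zero, zero_mul]
      · simp
    rw [h1]
    unfold tup
    rw [map_sum, coeff_sum, Finset.sum_eq_single p.2]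
    · rw [bind₁_monomial]
      unfold wt
      have h2 : ∏ i ∈ p.2.1.support, (C (l i) * X i : MvPolynomial (Fin (N + 1)) K) ^ p.2.1 i =
          C (∏ j, l j ^ p.2.1 j) * monomial p.2.1 1 := by
        have h3 : ∏ j, l j ^ p.2.1 j = ∏ j ∈ p.2.1.support, l j ^ p.2.1 j := by
          symm
          apply Finset.prod_subset (Finset.subset_univ _)
          intro j _ hj
          rw [Finsupp.notMem_support_iff.mp hj, pow_zero]
        rw [h3]
        simp_rw [mul_pow, ← C_pow]
        rw [Finset.prod_mul_distrib, ← map_prod, monomial_eq, C_1, one_mul]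
        rfl
      rw [h2, coeff_C_mul, coeff_C_mul, coeff_monomial, if_pos rfl]
      ring
    · intro b _ hb
      rw [bind₁_monomial]
      have h2 : ∏ i ∈ b.1.support, (C (l i) * X i : MvPolynomial (Fin (N + 1)) K) ^ b.1 i =
          C (∏ j ∈ b.1.support, l j ^ b.1 j) * monomial b.1 1 := by
        simp_rw [mul_pow, ← C_pow]
        rw [Finset.prod_mul_distrib, ← map_prod, monomial_eq, C_1, one_mul]
        rfl
      rw [h2, coeff_C_mul, coeff_C_mul, coeff_monomial, if_neg, mul_zero, mul_zero]
      intro h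
      exact hb (Subtype.ext h)
    · simp
  · intro b _ hb
    rw [Matrix.diagonal_apply_ne _ hb.symm, map_zero, zero_mul, coeff_zero]
  · simp

theorem wt_eq_one_iff {l : Fin (N + 1) → K} (hl : ∀ i, l i ≠ 0) (p : Ix N d) :
    wt l p = 1 ↔ (∏ j, l j) * ∏ j, l j ^ p.2.1 j = l p.1 := by
  unfold wt
  rw [← Finset.mul_prod_erase Finset.univ l (Finset.mem_univ p.1)]
  constructor
  · intro h
    rw [mul_assoc, h, mul_one]
  · intro h
    rw [mul_assoc] at h
    exact mul_left_cancel₀ (hl p.1) (by rw [h, mul_one])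

theorem rank_diag (hN : 2 ≤ N) (hd : 2 ≤ d) {l : Fin (N + 1) → K} (hl : ∀ i, l i ≠ 0)
    (hne : ∃ i j, l i ≠ l j) {c : Ix N d → K} (hc : actT (Matrix.diagonal l) c = c)
    (hinj : ∀ Y, Helper819.Dyn.xi Y c = 0 → Y = 0) (φ : (Ix N d → K) →ₗ[K] K) :
    ∃ v, φ v = 0 ∧ ∀ Y, actT (Matrix.diagonal l) v - v ≠ Helper819.Dyn.xi Y c := by
  classical
  by_contra hcon
  push Not at hcon
  have hcount := W347.ML.count hN hd l (∏ j, l j) hne
  -- extension by zero
  let E : ({p : Ix N d // wt l p ≠ 1} → K) →ₗ[K] (Ix N d → K) :=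
    { toFun := fun u p => if h : wt l p ≠ 1 then u ⟨p, h⟩ else 0
      map_add' := by
        intro u v
        funext p
        simp only [Pi.add_apply]
        split_ifs <;> simp
      map_smul' := by
        intro r u
        funext p
        simp only [Pi.smul_apply, smul_eq_mul, RingHom.id_apply]
        split_ifs <;> simp }
  have hE0 : ∀ u p, wt l p = 1 → E u p = 0 := by
    intro u p hp
    change (if h : wt l p ≠ 1 then u ⟨p, h⟩ else 0) = 0
    rw [dif_neg (not_not.mpr hp)]
  have hEinj : Function.Injective E := by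
    intro u v huv
    funext p
    have h1 := congrFun huv p.1
    change (if h : wt l p.1 ≠ 1 then u ⟨p.1, h⟩ else 0) =
      (if h : wt l p.1 ≠ 1 then v ⟨p.1, h⟩ else 0) at h1
    rwa [dif_pos p.2, dif_pos p.2] at h1
  let G : (Ix N d → K) →ₗ[K] (Ix N d → K) :=
    { toFun := fun u p => (wt l p - 1)⁻¹ * u p
      map_add' := by
        intro u v
        funext p
        simp only [Pi.add_apply, mul_add]
      map_smul' := by
        intro r u
        funext p
        simp only [Pi.smul_apply, smul_eq_mul, RingHom.id_apply]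
        ring }
  have hG : ∀ u, actT (Matrix.diagonal l) (G (E u)) - G (E u) = E u := by
    intro u
    funext p
    rw [Pi.sub_apply, actT_diagonal]
    change wt l p * ((wt l p - 1)⁻¹ * E u p) - (wt l p - 1)⁻¹ * E u p = E u p
    by_cases hp : wt l p = 1
    · rw [hE0 u p hp]
      simp
    · have := sub_ne_zero.mpr hp
      field_simp
  let R : Submodule K (Ix N d → K) := Submodule.span K (Set.range
    fun ij : {ij : Fin (N + 1) × Fin (N + 1) // l ij.1 ≠ l ij.2} =>
      Helper819.Dyn.xi (Eij K N ij.1) c)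
  let Λ' : Matrix (Fin (N + 1)) (Fin (N + 1)) K := Matrix.diagonal fun i => (l i)⁻¹
  have hΛ : Matrix.diagonal l * Λ' = 1 := by
    change Matrix.diagonal l * Matrix.diagonal _ = 1
    rw [Matrix.diagonal_mul_diagonal, ← Matrix.diagonal_one]
    congr 1
    funext i
    exact mul_inv_cancel₀ (hl i)
  have hconj : ∀ Y, actT (Matrix.diagonal l) (Helper819.Dyn.xi Y c) =
      Helper819.Dyn.xi (Λ' * Y * Matrix.diagonal l) c := by
    intro Y
    rw [actT_xi _ Λ' hΛ, hc]
  have hent : ∀ (Y : Matrix (Fin (N + 1)) (Fin (N + 1)) K) i j,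
      (Λ' * Y * Matrix.diagonal l) i j = (l i)⁻¹ * Y i j * l j := by
    intro Y i j
    have h1 : (Λ' * Y) i j = (l i)⁻¹ * Y i j := Matrix.diagonal_mul _ _ _ _
    rw [Matrix.mul_diagonal, h1]
  have hR : ∀ u ∈ LinearMap.ker (φ ∘ₗ G ∘ₗ E), E u ∈ R := by
    intro u hu
    obtain ⟨Y, hY⟩ := hcon (G (E u)) (LinearMap.mem_ker.mp hu)
    rw [hG] at hY
    let Y0 : Matrix (Fin (N + 1)) (Fin (N + 1)) K := Matrix.of fun i j =>
      if l i = l j then Y i j else 0
    let Y1 : Matrix (Fin (N + 1)) (Fin (N + 1)) K := Matrix.of fun i j =>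
      if l i = l j then 0 else Y i j
    have hY01 : Y = Y0 + Y1 := by
      ext i j
      simp only [Y0, Y1, Matrix.add_apply, Matrix.of_apply]
      split_ifs <;> simp
    have h0 : ∀ p, wt l p ≠ 1 → Helper819.Dyn.xi Y0 c p = 0 := by
      intro p hp
      have h1 := hconj Y0
      have h2 : Λ' * Y0 * Matrix.diagonal l = Y0 := by
        ext i j
        rw [hent]
        simp only [Y0, Matrix.of_apply]
        split_ifs with h
        · rw [h]
          have := hl j
          field_simp
        · simp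
      rw [h2] at h1
      have h3 := congrFun h1 p
      rw [actT_diagonal] at h3
      have h4 : (wt l p - 1) * Helper819.Dyn.xi Y0 c p = 0 := by
        linear_combination h3
      exact (mul_eq_zero.mp h4).resolve_left (sub_ne_zero.mpr hp)
    have hij : ∀ ij : Fin (N + 1) × Fin (N + 1), l ij.1 ≠ l ij.2 → ∀ p, wt l p = 1 →
        Helper819.Dyn.xi (Eij K N ij) c p = 0 := by
      intro ij h p hp
      have h1 := hconj (Eij K N ij)
      have h2 : Λ' * Eij K N ij * Matrix.diagonal l = ((l ij.1)⁻¹ * l ij.2) • Eij K N ij := by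
        ext i j
        rw [hent, Matrix.smul_apply, smul_eq_mul]
        unfold Eij
        rw [Matrix.single_apply]
        split_ifs with h3
        · rw [h3.1, h3.2]
          ring
        · simp
      rw [h2, Helper819.Dyn.xi_smul] at h1
      have h3 := congrFun h1 p
      rw [actT_diagonal, hp, one_mul, Pi.smul_apply, smul_eq_mul] at h3
      have h4 : (l ij.1 - l ij.2) * Helper819.Dyn.xi (Eij K N ij) c p = 0 := by
        have := hl ij.1
        field_simp at h3
        linear_combination h3
      exact (mul_eq_zero.mp h4).resolve_left (sub_ne_zero.mpr h)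
    have hxi1 : Helper819.Dyn.xi Y1 c = ∑ ij : Fin (N + 1) × Fin (N + 1),
        Y1 ij.1 ij.2 • Helper819.Dyn.xi (Eij K N ij) c := by
      conv_lhs => rw [sum_Eij Y1, xi_sum]
      exact Finset.sum_congr rfl fun ij _ => Helper819.Dyn.xi_smul _ _ _
    have h1 : ∀ p, wt l p = 1 → Helper819.Dyn.xi Y1 c p = 0 := by
      intro p hp
      rw [hxi1, Finset.sum_apply]
      apply Finset.sum_eq_zero
      intro ij _
      rw [Pi.smul_apply, smul_eq_mul]
      by_cases h : l ij.1 = l ij.2
      · have : Y1 ij.1 ij.2 = 0 := by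
          simp only [Y1, Matrix.of_apply]
          rw [if_pos h]
        rw [this, zero_mul]
      · rw [hij ij h p hp, mul_zero]
    have h2 : Helper819.Dyn.xi Y0 c = 0 := by
      funext p
      by_cases hp : wt l p = 1
      · have h3 := congrFun hY p
        rw [hE0 u p hp, hY01, Helper819.Dyn.xi_add, Pi.add_apply, h1 p hp, add_zero] at h3
        exact h3.symm
      · exact h0 p hp
    have h3 : E u = Helper819.Dyn.xi Y1 c := by
      rw [hY, hY01, Helper819.Dyn.xi_add, h2, zero_add]
    rw [h3, hxi1]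
    refine Submodule.sum_mem _ fun ij _ => ?_
    by_cases h : l ij.1 = l ij.2
    · have : Y1 ij.1 ij.2 = 0 := by
        simp only [Y1, Matrix.of_apply]
        rw [if_pos h]
      rw [this, zero_smul]
      exact zero_mem _
    · exact Submodule.smul_mem _ _ (Submodule.subset_span ⟨⟨ij, h⟩, rfl⟩)
  -- dimensions
  have d1 : Module.finrank K R ≤
      Fintype.card {ij : Fin (N + 1) × Fin (N + 1) // l ij.1 ≠ l ij.2} :=
    finrank_range_le_card _
  have d2 : Module.finrank K (LinearMap.ker (φ ∘ₗ G ∘ₗ E)) ≤ Module.finrank K R := by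
    let T : LinearMap.ker (φ ∘ₗ G ∘ₗ E) →ₗ[K] R :=
      (E ∘ₗ (LinearMap.ker (φ ∘ₗ G ∘ₗ E)).subtype).codRestrict R (fun u => hR u.1 u.2)
    refine LinearMap.finrank_le_finrank_of_injective (f := T) ?_
    intro u v huv
    apply Subtype.ext
    apply hEinj
    exact congrArg Subtype.val huv
  have d3 := LinearMap.finrank_range_add_finrank_ker (φ ∘ₗ G ∘ₗ E)
  have d4 : Module.finrank K (LinearMap.range (φ ∘ₗ G ∘ₗ E)) ≤ 1 := by
    have := Submodule.finrank_le (LinearMap.range (φ ∘ₗ G ∘ₗ E))
    rwa [Module.finrank_self] at this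
  rw [Module.finrank_fintype_fun_eq_card] at d3
  have c1 : Fintype.card {ij : Fin (N + 1) × Fin (N + 1) // l ij.1 ≠ l ij.2} =
      (Finset.univ.filter fun ij : Fin (N+1) × Fin (N+1) => l ij.1 ≠ l ij.2).card :=
    Fintype.card_subtype _
  have c2 : Fintype.card {p : Ix N d // wt l p ≠ 1} =
      (Finset.univ.filter fun p : Ix N d => (∏ j, l j) * ∏ j, l j ^ (p.2.1 j) ≠ l p.1).card := by
    rw [Fintype.card_subtype]
    congr 1
    ext p
    simp only [Finset.mem_filter, Finset.mem_univ, true_and, Ne, wt_eq_one_iff hl]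
  omega

/-- An automorphism acts on the normal space of the orbit neither trivially nor as a
pseudo-reflection. -/
theorem rank_two [IsAlgClosed K] [CharZero K] (hN : 2 ≤ N) (hd : 2 ≤ d) {c : Ix N d → K}
    (hc : NZ (tup c)) {A : Matrix (Fin (N + 1)) (Fin (N + 1)) K} (hA : A.det ≠ 0)
    (hAc : actT A c = c) (hns : ∀ μ : K, A ≠ μ • 1) (φ : (Ix N d → K) →ₗ[K] K) :
    ∃ v, φ v = 0 ∧ ∀ Y, actT A v - v ≠ Helper819.Dyn.xi Y c := by
  obtain ⟨g, l, hg, hAg⟩ := exists_diag hd hc A hA hAc
  have hgu : IsUnit g.det := isUnit_iff_ne_zero.mpr hg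
  have hl : ∀ i, l i ≠ 0 := by
    have h1 := congrArg Matrix.det hAg
    rw [Matrix.det_mul, Matrix.det_mul, Matrix.det_diagonal] at h1
    have h2 : ∏ i, l i ≠ 0 := by
      intro h
      rw [h, mul_zero] at h1
      exact mul_ne_zero hA hg h1
    intro i hi
    exact h2 (Finset.prod_eq_zero (Finset.mem_univ i) hi)
  have hne : ∃ i j, l i ≠ l j := by
    by_contra hcon
    push Not at hcon
    apply hns (l 0)
    have h1 : Matrix.diagonal l = l 0 • (1 : Matrix (Fin (N + 1)) (Fin (N + 1)) K) := by
      rw [← Matrix.diagonal_one, ← Matrix.diagonal_smul]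
      congr 1
      funext i
      rw [Pi.smul_apply, smul_eq_mul, mul_one]
      exact hcon i 0
    rw [h1, Matrix.mul_smul, mul_one] at hAg
    have h2 := congrArg (· * g⁻¹) hAg
    simp only [Matrix.mul_assoc, Matrix.smul_mul] at h2
    rw [Matrix.mul_nonsing_inv _ hgu, mul_one] at h2
    exact h2
  have hc' : actT (Matrix.diagonal l) (actT g c) = actT g c := by
    rw [actT_actT, ← hAg, ← actT_actT, hAc]
  have hnz : NZ (tup (actT g c)) := by
    rw [tup_actT]
    exact NZ_act hc g hg
  obtain ⟨v, hv1, hv2⟩ := rank_diag hN hd hl hne hc' (fun Y hY => xi_zero_iff hd hnz Y hY)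
    (φ ∘ₗ actL g⁻¹)
  refine ⟨actT g⁻¹ v, hv1, fun Y hY => hv2 (g⁻¹ * Y * g) ?_⟩
  have h1 : actT g (actT g⁻¹ v) = v := by
    rw [actT_actT, Matrix.nonsing_inv_mul _ hgu, actT_one]
  have h2 := congrArg (actL g) hY
  rw [map_sub] at h2
  change actT g (actT A (actT g⁻¹ v)) - actT g (actT g⁻¹ v) = actT g (Helper819.Dyn.xi Y c) at h2
  rw [actT_actT, hAg, ← actT_actT, h1, actT_xi g g⁻¹ (Matrix.mul_nonsing_inv _ hgu)] at h2
  exact h2

end

end Pool.Agent.W512.ML
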