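import Pool.Agent.W512.ML.Dim
import Pool.Agent.W512.ML.Free2

/-!
Maps with nontrivial automorphisms are singular points.
-/

open MvPolynomial

namespace Pool.Agent.W512.ML

open Pool.Agent.Helper819.Dyn Pool.Agent.Helper819.Apolar

noncomputable section

set_option linter.unusedSectionVars false
set_option synthInstance.maxHeartbeats 400000

variable {k : Type} [Field k] {N d : ℕ}

/-- a family of the right length generating the maximal ideal -/
theorem exists_gens {O : Type} [CommRing O] [IsRegularLocalRing O] {ν : ℕ}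
    (h : ringKrullDim O ≤ ν) : ∃ y : Fin ν → O,
      IsLocalRing.maximalIdeal O = Ideal.span (Set.range y) := by
  classical
  have h1 := IsRegularLocalRing.spanFinrank_maximalIdeal (R := O)
  have hfg : (IsLocalRing.maximalIdeal O).FG := IsNoetherian.noetherian _
  obtain ⟨s, hs1, hs2⟩ := Submodule.FG.exists_span_finset_card_eq_spanFinrank hfg
  have h2 : s.card ≤ ν := by
    rw [hs1]
    rw [← h1] at h
    exact_mod_cast h
  let e := s.equivFin
  refine ⟨fun i => if h : (i : ℕ) < s.card then (e.symm ⟨i, h⟩ : O) else 0, ?_⟩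
  rw [← hs2]
  apply le_antisymm
  · refine Submodule.span_le.mpr fun x hx => ?_
    refine Ideal.subset_span ⟨⟨e ⟨x, hx⟩, lt_of_lt_of_le (e ⟨x, hx⟩).2 h2⟩, ?_⟩
    simp
  · refine Ideal.span_le.mpr ?_
    rintro _ ⟨i, rfl⟩
    change (if h : (i : ℕ) < s.card then (e.symm ⟨i, h⟩ : O) else 0) ∈ _
    split_ifs with hi
    · exact Submodule.subset_span (e.symm ⟨i, hi⟩).2
    · exact zero_mem _

/-- an irreducible factor through a point -/
theorem exists_factor (f : Ix N d → k) (P : SS k N d) (hP : eval f P = 0) :
    ∃ h : SS k N d, (Ideal.span {h}).IsPrime ∧ h ∣ P ∧ eval f h = 0 := by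
  classical
  by_cases h0 : P = 0
  · refine ⟨0, ?_, by rw [h0], map_zero _⟩
    have : Ideal.span {(0 : SS k N d)} = ⊥ := by simp
    rw [this]
    exact Ideal.isPrime_bot
  · have h1 := UniqueFactorizationMonoid.factors_prod h0
    have h2 : (UniqueFactorizationMonoid.factors P).prod ∈ pt f := by
      obtain ⟨u, hu⟩ := h1.symm
      rw [← hu]
      exact Ideal.mul_mem_right _ _ hP
    obtain ⟨h, hh1, hh2⟩ := ((inferInstance : (pt f).IsPrime).multiset_prod_mem_iff_exists_mem _).mp h2
    have h3 := UniqueFactorizationMonoid.prime_of_factor h hh1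
    exact ⟨h, (Ideal.span_singleton_prime h3.ne_zero).mpr h3,
      UniqueFactorizationMonoid.dvd_of_mem_factors hh1, hh2⟩

theorem span_prime_dvd {h a b : SS k N d} (hp : (Ideal.span {h}).IsPrime) (hab : h ∣ a * b)
    (hb : ¬ h ∣ b) : h ∣ a := by
  rw [← Ideal.mem_span_singleton] at hab hb ⊢
  exact (hp.mem_or_mem hab).resolve_right hb

/-- chain rule for composition with the action -/
theorem dd_compT (B : Matrix (Fin (N + 1)) (Fin (N + 1)) k) (c v : Ix N d → k) (P : SS k N d) :
    dd (compT B P) c v = dd P (actT B c) (actT B v) := by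
  have h3 : actT (B.map (algebraMap k (DualNumber k))) (fun p => algebraMap k (DualNumber k) (c p) +
    DualNumber.eps * algebraMap k (DualNumber k) (v p)) =
      fun p => algebraMap k (DualNumber k) (actT B c p) +
        DualNumber.eps * algebraMap k (DualNumber k) (actT B v p) := by
    have e1 : (fun p => algebraMap k (DualNumber k) (c p) +
        DualNumber.eps * algebraMap k (DualNumber k) (v p)) =
        (fun p => algebraMap k (DualNumber k) (c p)) +
          (DualNumber.eps : DualNumber k) • (fun p => algebraMap k (DualNumber k) (v p)) := rfl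
    rw [e1, actT_add, actT_smul]
    funext p
    simp only [Pi.add_apply, Pi.smul_apply, smul_eq_mul]
    rw [map_actT, map_actT]
  have h2 := aeval_compT_S B (fun p => algebraMap k (DualNumber k) (c p) +
    DualNumber.eps * algebraMap k (DualNumber k) (v p)) P
  rw [h3, eval_eps _ DualNumber.eps_mul_eps, eval_eps _ DualNumber.eps_mul_eps] at h2
  have h4 := congrArg TrivSqZeroExt.snd h2
  rw [snd_form, snd_form] at h4
  exact h4

theorem dd_mul (P Q : SS k N d) (c v : Ix N d → k) :
    dd (P * Q) c v = dd P c v * eval c Q + eval c P * dd Q c v := by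
  unfold dd
  rw [Finset.sum_mul, Finset.mul_sum, ← Finset.sum_add_distrib]
  refine Finset.sum_congr rfl fun p _ => ?_
  rw [Derivation.leibniz, map_add, smul_eq_mul, smul_eq_mul, map_mul, map_mul]
  ring

/-- the differential at `f` of a rational function regular at `f` -/
def dval (f : Ix N d → k) (a : KK k N d) (v : Ix N d → k) : k := ∑ p, v p * val0 f (pdK p a)

theorem dval_add (f : Ix N d → k) (a : KK k N d) (v w : Ix N d → k) :
    dval f a (v + w) = dval f a v + dval f a w := by
  unfold dval
  simp only [Pi.add_apply, add_mul, Finset.sum_add_distrib]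

theorem dval_smul (f : Ix N d → k) (a : KK k N d) (r : k) (v : Ix N d → k) :
    dval f a (r • v) = r * dval f a v := by
  unfold dval
  simp only [Pi.smul_apply, smul_eq_mul, Finset.mul_sum, mul_assoc]

theorem dval_sum (f : Ix N d → k) (a : KK k N d) {ι : Type*} (s : Finset ι)
    (v : ι → Ix N d → k) : dval f a (∑ i ∈ s, v i) = ∑ i ∈ s, dval f a (v i) := by
  unfold dval
  simp only [Finset.sum_apply, Finset.sum_mul]
  rw [Finset.sum_comm]

theorem dval_div {f : Ix N d → k} {P Q : SS k N d} (hQ : eval f Q ≠ 0) (v : Ix N d → k) :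
    dval f (jj k N d P / jj k N d Q) v =
      (dd P f v * eval f Q - eval f P * dd Q f v) / eval f Q ^ 2 := by
  unfold dval dd
  have h1 : ∀ p, val0 f (pdK p (jj k N d P / jj k N d Q)) =
      (eval f (pderiv p P) * eval f Q - eval f P * eval f (pderiv p Q)) / eval f Q ^ 2 := by
    intro p
    rw [pdK_div, val0_eq (P := pderiv p P * Q - P * pderiv p Q) (Q := Q ^ 2)
      (by rw [map_pow]; exact pow_ne_zero _ hQ) rfl]
    simp only [map_sub, map_mul, map_pow]
  simp only [h1]
  rw [Finset.sum_mul, Finset.mul_sum, ← Finset.sum_sub_distrib, Finset.sum_div]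
  refine Finset.sum_congr rfl fun p _ => ?_
  ring

theorem dval_xi [Infinite k] {f : Ix N d → k} {a : KK k N d} (ha : a ∈ Oloc f)
    (Y : Matrix (Fin (N + 1)) (Fin (N + 1)) k) : dval f a (Helper819.Dyn.xi Y f) = 0 := by
  obtain ⟨P, Q, hQ, rfl, h⟩ := ha
  rw [dval_div hQ, inv_lie h Y f, sub_self, zero_div]

theorem dval_stab {f : Ix N d → k} [Infinite k] {a : KK k N d} (ha : a ∈ Oloc f)
    {A : Matrix (Fin (N + 1)) (Fin (N + 1)) k} (hA : A.det ≠ 0) (hAf : actT A f = f)
    (v : Ix N d → k) : dval f a (actT A v - v) = 0 := by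
  obtain ⟨P, Q, hQ, rfl, h⟩ := ha
  have h1 : compT A P * Q = P * compT A Q := by
    apply MvPolynomial.funext
    intro c
    rw [map_mul, map_mul, eval_compT, eval_compT]
    exact h A hA c
  have h2 := congrArg (fun R => dd R f v) h1
  simp only [dd_mul, dd_compT, eval_compT, hAf] at h2
  have h3 : ∀ R : SS k N d, dd R f (actT A v - v) = dd R f (actT A v) - dd R f v := by
    intro R
    unfold dd
    simp only [Pi.sub_apply, sub_mul, Finset.sum_sub_distrib]
  rw [dval_div hQ, h3, h3]
  have h4 : (dd P f (actT A v) - dd P f v) * eval f Q -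
      eval f P * (dd Q f (actT A v) - dd Q f v) = 0 := by
    linear_combination h2
  rw [h4, zero_div]

end

end Pool.Agent.W512.ML
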