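import Pool.Agent.W512.ML.Sing

/-!
Maps with nontrivial automorphisms are singular points.
-/

open MvPolynomial

namespace Pool.Agent.W512.ML

open Pool.Agent.Helper819.Dyn Pool.Agent.Helper819.Apolar

noncomputable section

set_option linter.unusedSectionVars false
set_option synthInstance.maxHeartbeats 400000

variable {k : Type} [Field k] {N d : ℕ}

theorem expand {ν : ℕ} {e : Ix N d ≃ Fin ν ⊕ (Fin (N + 1) × Fin (N + 1))}
    {τ : Fin ν → Ix N d → k} {f : Ix N d → k}
    (h : LinearIndependent k (fun a : Ix N d =>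
      Sum.elim τ (fun ij => Helper819.Dyn.xi (Eij k N ij) f) (e a))) (w : Ix N d → k) :
    ∃ (α : Fin ν → k) (Y : Matrix (Fin (N + 1)) (Fin (N + 1)) k),
      w = ∑ l, α l • τ l + Helper819.Dyn.xi Y f := by
  have h1 : w ∈ Submodule.span k (Set.range (fun a : Ix N d =>
      Sum.elim τ (fun ij => Helper819.Dyn.xi (Eij k N ij) f) (e a))) := by
    rw [h.span_eq_top_of_card_eq_finrank' (by rw [Module.finrank_fintype_fun_eq_card])]
    trivial
  obtain ⟨r, hr⟩ := (Submodule.mem_span_range_iff_exists_fun k).mp h1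
  refine ⟨fun l => r (e.symm (Sum.inl l)),
    ∑ ij, r (e.symm (Sum.inr ij)) • Eij k N ij, ?_⟩
  rw [← hr, xi_sum]
  simp only [Helper819.Dyn.xi_smul]
  rw [← Equiv.sum_comp e.symm (fun a => r a • Sum.elim τ
    (fun ij => Helper819.Dyn.xi (Eij k N ij) f) (e a)), Fintype.sum_sum_type]
  simp only [Equiv.apply_symm_apply, Sum.elim_inl, Sum.elim_inr]

theorem det_zero [IsAlgClosed k] [CharZero k] (hN : 2 ≤ N) (hd : 2 ≤ d) {f : Ix N d → k}
    (hf : NZ (tup f)) {A : Matrix (Fin (N + 1)) (Fin (N + 1)) k} (hA : A.det ≠ 0)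
    (hAf : actT A f = f) (hns : ∀ μ : k, A ≠ μ • 1)
    {ν : ℕ} {e : Ix N d ≃ Fin ν ⊕ (Fin (N + 1) × Fin (N + 1))}
    {τ : Fin ν → Ix N d → k}
    (h : LinearIndependent k (fun a : Ix N d =>
      Sum.elim τ (fun ij => Helper819.Dyn.xi (Eij k N ij) f) (e a)))
    (y : Fin ν → Oloc f) :
    (Matrix.of fun i l => dval f (y i) (τ l)).det = 0 := by
  have hinf : Infinite k := inferInstance
  obtain ⟨v, -, hv⟩ := rank_two hN hd hf hA hAf hns 0
  obtain ⟨α, Y, hw⟩ := expand h (actT A v - v)
  by_contra hdet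
  have hα : α = 0 := by
    apply Matrix.eq_zero_of_mulVec_eq_zero hdet
    funext i
    have h1 := dval_stab (y i).2 hA hAf v
    rw [hw, dval_add, dval_xi (y i).2, add_zero, dval_sum] at h1
    simp only [dval_smul] at h1
    rw [Pi.zero_apply, ← h1]
    change ∑ l, dval f (y i) (τ l) * α l = _
    exact Finset.sum_congr rfl fun l _ => mul_comm _ _
  rw [hα] at hw
  simp only [Pi.zero_apply, zero_smul, Finset.sum_const_zero, zero_add] at hw
  exact hv Y hw

/-- directional derivative along a constant vector, in the big local ring -/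
def dR (f : Ix N d → k) (t : Ix N d → k) (a : Rloc f) : Rloc f :=
  ∑ p, algebraMap k (Rloc f) (t p) * grd f a p

theorem dR_coe (f : Ix N d → k) (t : Ix N d → k) (a : Rloc f) :
    ((dR f t a : Rloc f) : KK k N d) = ∑ p, algebraMap k (KK k N d) (t p) * pdK p a := by
  have h1 : ((dR f t a : Rloc f) : KK k N d) = (Rloc f).val (dR f t a) := rfl
  rw [h1]
  unfold dR
  rw [map_sum]
  rfl

theorem valf_dR (f : Ix N d → k) (t : Ix N d → k) (a : Rloc f) :
    valf f (dR f t a) = dval f a t := by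
  unfold dR dval
  rw [map_sum]
  refine Finset.sum_congr rfl fun p _ => ?_
  rw [map_mul, AlgHom.commutes]
  rfl

/-- expansion of constant vectors in the frame, over the big local ring -/
theorem frame_expand [Infinite k] {ν : ℕ} {e : Ix N d ≃ Fin ν ⊕ (Fin (N + 1) × Fin (N + 1))}
    {τ : Fin ν → Ix N d → k} {f : Ix N d → k}
    (h : LinearIndependent k (fun a : Ix N d =>
      Sum.elim τ (fun ij => Helper819.Dyn.xi (Eij k N ij) f) (e a))) (t : Ix N d → k) :
    ∃ γ : Fin ν → Rloc f, ∀ a : Oloc f,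
      dR f t (incl f a) = ∑ l, dR f (τ l) (incl f a) * γ l := by
  have h0 := eval_det_BM h
  let B : Matrix (Ix N d) (Ix N d) (Rloc f) := (BM e τ).map (toR f)
  have hB : IsUnit B.det := by
    rw [isUnit_iff_valf]
    have h1 : B.det = toR f (BM e τ).det := (RingHom.map_det (toR f) (BM e τ)).symm
    rw [h1, valf_toR]
    exact h0
  let γ' : Ix N d → Rloc f := Matrix.vecMul (fun p => algebraMap k (Rloc f) (t p)) B⁻¹
  have hγ' : ∀ p, algebraMap k (Rloc f) (t p) = ∑ a, γ' a * B a p := by
    intro p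
    have h1 : Matrix.vecMul γ' B = fun p => algebraMap k (Rloc f) (t p) := by
      change Matrix.vecMul (Matrix.vecMul _ B⁻¹) B = _
      rw [Matrix.vecMul_vecMul, Matrix.nonsing_inv_mul _ hB, Matrix.vecMul_one]
    exact (congrFun h1 p).symm
  refine ⟨fun l => γ' (e.symm (Sum.inl l)), fun a => ?_⟩
  have h2 : dR f t (incl f a) = ∑ x, γ' x * ∑ p, B x p * grd f (incl f a) p := by
    unfold dR
    simp_rw [hγ', Finset.sum_mul, Finset.mul_sum]
    rw [Finset.sum_comm]
    exact Finset.sum_congr rfl fun x _ => Finset.sum_congr rfl fun p _ => by ring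
  rw [h2, ← Equiv.sum_comp e.symm (fun x => γ' x * ∑ p, B x p * grd f (incl f a) p),
    Fintype.sum_sum_type]
  have h3 : ∀ ij, ∑ p, B (e.symm (Sum.inr ij)) p * grd f (incl f a) p = 0 := by
    intro ij
    apply Subtype.ext
    have h4 : (((∑ p, B (e.symm (Sum.inr ij)) p * grd f (incl f a) p : Rloc f)) : KK k N d) =
        (Rloc f).val (∑ p, B (e.symm (Sum.inr ij)) p * grd f (incl f a) p) := rfl
    rw [h4, map_sum]
    have h5 := Oloc_der a.2 (Eij k N ij)
    refine Eq.trans ?_ h5
    refine Finset.sum_congr rfl fun p _ => ?_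
    rw [map_mul]
    change jj k N d (BM e τ (e.symm (Sum.inr ij)) p) * pdK p (a : KK k N d) = _
    unfold BM
    rw [Equiv.apply_symm_apply, Sum.elim_inr]
  have h6 : ∀ l, ∑ p, B (e.symm (Sum.inl l)) p * grd f (incl f a) p = dR f (τ l) (incl f a) := by
    intro l
    unfold dR
    refine Finset.sum_congr rfl fun p _ => ?_
    congr 1
    change toR f (BM e τ (e.symm (Sum.inl l)) p) = _
    unfold BM
    rw [Equiv.apply_symm_apply, Sum.elim_inl]
    rfl
  simp only [h3, h6, mul_zero, Finset.sum_const_zero, add_zero]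
  exact Finset.sum_congr rfl fun l _ => mul_comm _ _

end

end Pool.Agent.W512.ML
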