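import Pool.Agent.W512.ML.Sing2

/-!
Maps with nontrivial automorphisms are singular points.
-/

open MvPolynomial

namespace Pool.Agent.W512.ML

open Pool.Agent.Helper819.Dyn Pool.Agent.Helper819.Apolar

noncomputable section

set_option linter.unusedSectionVars false
set_option synthInstance.maxHeartbeats 400000

variable {k : Type} [Field k] {N d : ℕ}

/-- factorisation of Jacobian determinants -/
theorem det_factor [Infinite k] {ν : ℕ} {e : Ix N d ≃ Fin ν ⊕ (Fin (N + 1) × Fin (N + 1))}
    {τ : Fin ν → Ix N d → k} {f : Ix N d → k}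
    (h : LinearIndependent k (fun a : Ix N d =>
      Sum.elim τ (fun ij => Helper819.Dyn.xi (Eij k N ij) f) (e a)))
    (y : Fin ν → Oloc f)
    (hgen : IsLocalRing.maximalIdeal (Oloc f) = Ideal.span (Set.range y))
    (a : Fin ν → Oloc f) (t : Fin ν → Ix N d → k) :
    ∃ w : Rloc f, (Matrix.of fun i j => dR f (t j) (incl f (a i))).det =
      (Matrix.of fun i l => dR f (τ l) (incl f (y i))).det * w := by
  choose γ hγ using fun j => frame_expand h (t j)
  choose c hc using fun i => (Submodule.mem_span_range_iff_exists_fun (Rloc f)).mp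
    (grad_mem f y hgen (a i))
  refine ⟨(Matrix.of fun i m => c i m).det * (Matrix.of fun l j => γ j l).det, ?_⟩
  have h1 : ∀ i l, dR f (τ l) (incl f (a i)) = ∑ m, c i m * dR f (τ l) (incl f (y m)) := by
    intro i l
    unfold dR
    rw [← hc i]
    simp only [Finset.sum_apply, Pi.smul_apply, smul_eq_mul, Finset.mul_sum]
    rw [Finset.sum_comm]
    exact Finset.sum_congr rfl fun x _ => Finset.sum_congr rfl fun p _ => by ring
  have h2 : (Matrix.of fun i j => dR f (t j) (incl f (a i))) =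
      (Matrix.of fun i m => c i m) * (Matrix.of fun i l => dR f (τ l) (incl f (y i))) *
        (Matrix.of fun l j => γ j l) := by
    ext1 i j
    rw [Matrix.mul_apply, Matrix.of_apply, hγ]
    refine Finset.sum_congr rfl fun l _ => ?_
    rw [Matrix.mul_apply, Matrix.of_apply, h1]
    rfl
  rw [h2, Matrix.det_mul, Matrix.det_mul]
  ring

theorem isSemi_pow_pair {r m : ℕ} {D q : SS k N d} (hD : Helper819.Dyn.IsSemi r D)
    (hq : Helper819.Dyn.IsSemi (m * r) q) : InvPair q (D ^ m) := by
  intro A _ c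
  have h1 := hD.pow m A c
  rw [hq A c, h1, mul_comm r m]
  ring

theorem not_regular [IsAlgClosed k] [CharZero k] (hN : 2 ≤ N) (hd : 2 ≤ d) {f : Ix N d → k}
    (hf : NZ (tup f)) {A : Matrix (Fin (N + 1)) (Fin (N + 1)) k} (hA : A.det ≠ 0)
    (hAf : actT A f = f) (hns : ∀ μ : k, A ≠ μ • 1) : ¬ IsRegularLocalRing (Oloc f) := by
  classical
  intro hreg
  have hinf : Infinite k := inferInstance
  obtain ⟨ν, e, τ, hτ⟩ := exists_tau hd hf
  obtain ⟨y, hgen⟩ := exists_gens (krullDim_Oloc_le hd hf e)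
  -- the Jacobian
  obtain ⟨J, hJ⟩ : ∃ J : Rloc f, J = (Matrix.of fun i l => dR f (τ l) (incl f (y i))).det := ⟨_, rfl⟩
  have hJ0 : valf f J = 0 := by
    have h1 := det_zero hN hd hf hA hAf hns hτ y
    rw [hJ, AlgHom.map_det, ← h1]
    congr 1
    ext i l
    exact valf_dR f (τ l) (incl f (y i))
  obtain ⟨P, Q, hQ, hPQ⟩ := J.2
  have hP : eval f P = 0 := by
    have h1 := valf_eq J hQ hPQ
    rw [hJ0] at h1
    exact (div_eq_zero_iff.mp h1.symm).resolve_right hQ
  obtain ⟨h, hprime, hdvd, hhf⟩ := exists_factor f P hP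
  have hnd : ∀ R : SS k N d, eval f R ≠ 0 → ¬ h ∣ R := by
    rintro R hR ⟨R', rfl⟩
    apply hR
    rw [map_mul, hhf, zero_mul]
  -- the semi-invariant
  obtain ⟨r, D, hDs, hDf, hDnz⟩ := exists_semi_NZ hd hf
  obtain ⟨s, hhs, hDs0, htriv⟩ := exists_free hN hd h hprime D (hnd D hDf) hDnz
  have hs : NZ (tup s) := hDnz s hDs0
  obtain ⟨ν', e', t', ht'⟩ := exists_tau hd hs
  have hνν : ν' = ν := by
    have h1 := Fintype.card_congr e
    have h2 := Fintype.card_congr e'
    rw [Fintype.card_sum, Fintype.card_fin] at h1 h2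
    omega
  subst hνν
  -- dual functionals
  have hdet := eval_det_BM ht'
  let B : Matrix (Ix N d) (Ix N d) k := (BM e' t').map (eval s)
  have hB : IsUnit B.det := by
    have h1 : B.det = eval s (BM e' t').det := (RingHom.map_det (eval s) (BM e' t')).symm
    rw [h1]
    exact isUnit_iff_ne_zero.mpr hdet
  let ℓ : Fin ν' → Ix N d → k := fun i p => B⁻¹ p (e'.symm (Sum.inl i))
  have hBℓ : ∀ a i, ∑ p, B a p * ℓ i p = if a = e'.symm (Sum.inl i) then 1 else 0 := by
    intro a i
    have h1 : (B * B⁻¹) a (e'.symm (Sum.inl i)) = ∑ p, B a p * ℓ i p := Matrix.mul_apply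
    rw [← h1, Matrix.mul_nonsing_inv _ hB, Matrix.one_apply]
  have hBt : ∀ j p, B (e'.symm (Sum.inl j)) p = t' j p := by
    intro j p
    change eval s (BM e' t' (e'.symm (Sum.inl j)) p) = _
    rw [eval_BM, Equiv.apply_symm_apply, Sum.elim_inl]
  have hBx : ∀ ij p, B (e'.symm (Sum.inr ij)) p = Helper819.Dyn.xi (Eij k N ij) s p := by
    intro j p
    change eval s (BM e' t' (e'.symm (Sum.inr j)) p) = _
    rw [eval_BM, Equiv.apply_symm_apply, Sum.elim_inr]
  have hℓt : ∀ i j, ∑ p, ℓ i p * t' j p = if i = j then 1 else 0 := by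
    intro i j
    have h1 := hBℓ (e'.symm (Sum.inl j)) i
    simp only [hBt] at h1
    rw [← Finset.sum_congr rfl (fun p _ => mul_comm (t' j p) (ℓ i p)), h1]
    simp only [EmbeddingLike.apply_eq_iff_eq, Sum.inl.injEq, eq_comm]
  have hℓx : ∀ i (Y : Matrix (Fin (N + 1)) (Fin (N + 1)) k),
      ∑ p, ℓ i p * Helper819.Dyn.xi Y s p = 0 := by
    intro i Y
    have h1 : ∀ ij, ∑ p, ℓ i p * Helper819.Dyn.xi (Eij k N ij) s p = 0 := by
      intro ij
      have h2 := hBℓ (e'.symm (Sum.inr ij)) i
      rw [if_neg (by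
        intro h3
        have := e'.symm.injective h3
        simp at this)] at h2
      simp only [hBx] at h2
      rw [← h2]
      exact Finset.sum_congr rfl fun p _ => mul_comm _ _
    have h2 : Helper819.Dyn.xi Y s = ∑ ij : Fin (N + 1) × Fin (N + 1),
        Y ij.1 ij.2 • Helper819.Dyn.xi (Eij k N ij) s := by
      conv_lhs => rw [sum_Eij Y, xi_sum]
      exact Finset.sum_congr rfl fun ij _ => Helper819.Dyn.xi_smul _ _ _
    rw [h2]
    simp only [Finset.sum_apply, Pi.smul_apply, smul_eq_mul, Finset.mul_sum]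
    rw [Finset.sum_comm]
    apply Finset.sum_eq_zero
    intro ij _
    have h3 : ∀ p, ℓ i p * (Y ij.1 ij.2 * Helper819.Dyn.xi (Eij k N ij) s p) =
        Y ij.1 ij.2 * (ℓ i p * Helper819.Dyn.xi (Eij k N ij) s p) := fun p => by ring
    simp only [h3]
    rw [← Finset.mul_sum, h1, mul_zero]
  choose m q hq1 hq2 hq3 using fun i => lead hd hs hDs hDnz htriv (ℓ i) (hℓx i)
  have haO : ∀ i, jj k N d (q i) / jj k N d (D ^ m i) ∈ Oloc f := fun i =>
    ⟨q i, D ^ m i, by rw [map_pow]; exact pow_ne_zero _ hDf, rfl, isSemi_pow_pair hDs (hq1 i)⟩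
  let a : Fin ν' → Oloc f := fun i => ⟨_, haO i⟩
  obtain ⟨w, hw⟩ := det_factor hτ y hgen a t'
  rw [← hJ] at hw
  -- the left hand side is a fraction with denominators powers of `D`
  let u : Fin ν' → Fin ν' → SS k N d := fun i j => ∑ p, C (t' j p) *
    (pderiv p (q i) * D ^ m i - q i * pderiv p (D ^ m i))
  have hu : ∀ i j, ((dR f (t' j) (incl f (a i)) : Rloc f) : KK k N d) =
      (jj k N d ((D ^ m i) ^ 2))⁻¹ * jj k N d (u i j) := by
    intro i j
    rw [dR_coe]
    change ∑ p, algebraMap k (KK k N d) (t' j p) *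
      pdK p (jj k N d (q i) / jj k N d (D ^ m i)) = _
    simp only [u]
    rw [map_sum, Finset.mul_sum]
    refine Finset.sum_congr rfl fun p _ => ?_
    have h1 : algebraMap k (KK k N d) (t' j p) = jj k N d (C (t' j p)) :=
      (AlgHom.commutes (jj k N d) _).symm
    rw [pdK_div, h1, map_mul]
    ring
  have hueval : ∀ i j, eval s (u i j) = (eval s D ^ m i) ^ 2 * if i = j then 1 else 0 := by
    intro i j
    simp only [u]
    rw [map_sum]
    have h1 : ∀ p, eval s (C (t' j p) * (pderiv p (q i) * D ^ m i - q i * pderiv p (D ^ m i))) =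
        eval s D ^ m i * (t' j p * eval s (pderiv p (q i))) := by
      intro p
      rw [map_mul, map_sub, map_mul, map_mul, hq2, eval_C, map_pow]
      ring
    simp only [h1]
    rw [← Finset.mul_sum]
    have h2 := hq3 i (t' j)
    unfold dd at h2
    rw [h2, hℓt]
    ring
  have hdetK : (((Matrix.of fun i j => dR f (t' j) (incl f (a i))).det : Rloc f) : KK k N d) =
      (∏ i, (jj k N d ((D ^ m i) ^ 2))⁻¹) * jj k N d (Matrix.of u).det := by
    have h1 : (((Matrix.of fun i j => dR f (t' j) (incl f (a i))).det : Rloc f) : KK k N d) =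
        (Rloc f).val (Matrix.of fun i j => dR f (t' j) (incl f (a i))).det := rfl
    rw [h1, AlgHom.map_det, AlgHom.map_det, ← Matrix.det_mul_column]
    congr 1
    ext i j
    exact hu i j
  obtain ⟨W1, W2, hW2, hW⟩ := w.2
  have hKw := congrArg (fun x : Rloc f => (x : KK k N d)) hw
  change (((Matrix.of fun i j => dR f (t' j) (incl f (a i))).det : Rloc f) : KK k N d) =
    (J : KK k N d) * (w : KK k N d) at hKw
  rw [hdetK, hPQ, hW] at hKw
  have hDK : jj k N d D ≠ 0 := jj_ne hDf
  have hprodne : (∏ i, jj k N d ((D ^ m i) ^ 2)) ≠ 0 := by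
    rw [Finset.prod_ne_zero_iff]
    intro i _
    rw [map_pow, map_pow]
    exact pow_ne_zero _ (pow_ne_zero _ hDK)
  have key : (Matrix.of u).det * Q * W2 = (∏ i, (D ^ m i) ^ 2) * P * W1 := by
    apply jj_inj
    have hQK := jj_ne hQ
    have hWK := jj_ne hW2
    rw [Finset.prod_inv_distrib] at hKw
    simp only [map_mul, map_prod] at hKw hprodne ⊢
    field_simp at hKw
    linear_combination hKw
  have hU : h ∣ (Matrix.of u).det := by
    have h1 : h ∣ (Matrix.of u).det * Q * W2 := by
      rw [key]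
      exact Dvd.dvd.mul_right (Dvd.dvd.mul_left hdvd _) _
    exact span_prime_dvd hprime (span_prime_dvd hprime h1 (hnd _ hW2)) (hnd _ hQ)
  have hUs : eval s (Matrix.of u).det = 0 := by
    obtain ⟨g, hg⟩ := hU
    rw [hg, map_mul, hhs, zero_mul]
  rw [RingHom.map_det] at hUs
  have hmat : (eval s).mapMatrix (Matrix.of u) =
      Matrix.diagonal fun i => (eval s D ^ m i) ^ 2 := by
    ext i j
    rw [RingHom.mapMatrix_apply, Matrix.map_apply, Matrix.of_apply, hueval, Matrix.diagonal_apply]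
    split_ifs <;> simp
  rw [hmat, Matrix.det_diagonal, Finset.prod_eq_zero_iff] at hUs
  obtain ⟨i, _, hi⟩ := hUs
  exact pow_ne_zero _ (pow_ne_zero _ hDs0) hi

end

end Pool.Agent.W512.ML
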