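import Pool.Agent.W512.ML.Krull

/-!
A complement of the tangent space of an orbit.
-/

open MvPolynomial

namespace Pool.Agent.W512.ML

open Pool.Agent.Helper819.Dyn Pool.Agent.Helper819.Apolar

noncomputable section

set_option linter.unusedSectionVars false
set_option synthInstance.maxHeartbeats 400000

variable {k : Type} [Field k] {N d : ℕ}

theorem xi_zero_iff [IsAlgClosed k] [CharZero k] (hd : 2 ≤ d) {f : Ix N d → k}
    (hf : NZ (tup f)) (Y : Matrix (Fin (N + 1)) (Fin (N + 1)) k)
    (h : Helper819.Dyn.xi Y f = 0) : Y = 0 := by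
  apply lie_inj hd hf
  intro i
  have h1 := tup_xi (by omega) Y f
  rw [h] at h1
  have h2 := congrFun h1 i
  have h3 : tup (0 : Ix N d → k) i = 0 := by simp [tup]
  rw [h3] at h2
  unfold lieT at h2
  linear_combination -h2

/-- elementary matrices -/
def Eij (k : Type) [Field k] (N : ℕ) (ij : Fin (N + 1) × Fin (N + 1)) :
    Matrix (Fin (N + 1)) (Fin (N + 1)) k := Matrix.single ij.1 ij.2 1

theorem sum_Eij (Y : Matrix (Fin (N + 1)) (Fin (N + 1)) k) :
    Y = ∑ ij : Fin (N + 1) × Fin (N + 1), Y ij.1 ij.2 • Eij k N ij := by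
  rw [Fintype.sum_prod_type]
  conv_lhs => rw [Matrix.matrix_eq_sum_single Y]
  refine Finset.sum_congr rfl fun i _ => Finset.sum_congr rfl fun j _ => ?_
  unfold Eij
  rw [Matrix.smul_single, smul_eq_mul, mul_one]

theorem xi_sum {R : Type} [CommRing R] {ι : Type*} (s : Finset ι)
    (Y : ι → Matrix (Fin (N + 1)) (Fin (N + 1)) R) (c : Ix N d → R) :
    Helper819.Dyn.xi (∑ i ∈ s, Y i) c = ∑ i ∈ s, Helper819.Dyn.xi (Y i) c :=
  map_sum (xiL c) _ _

theorem xi_linInd [IsAlgClosed k] [CharZero k] (hd : 2 ≤ d) {f : Ix N d → k}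
    (hf : NZ (tup f)) : LinearIndependent k (fun ij => Helper819.Dyn.xi (Eij k N ij) f) := by
  rw [Fintype.linearIndependent_iff]
  intro g hg
  have h1 : Helper819.Dyn.xi (∑ ij, g ij • Eij k N ij) f = 0 := by
    rw [xi_sum, ← hg]
    exact Finset.sum_congr rfl fun ij _ => Helper819.Dyn.xi_smul _ _ _
  have h2 := xi_zero_iff hd hf _ h1
  intro ij
  have h3 := congrFun (congrFun h2 ij.1) ij.2
  rw [Matrix.sum_apply, Finset.sum_eq_single ij] at h3
  · simpa [Eij] using h3
  · intro b _ hb
    unfold Eij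
    rw [Matrix.smul_apply, Matrix.single_apply, if_neg, smul_zero]
    rintro ⟨h4, h5⟩
    exact hb (Prod.ext h4 h5)
  · intro h
    exact absurd (Finset.mem_univ _) h

theorem exists_tau [IsAlgClosed k] [CharZero k] (hd : 2 ≤ d) {f : Ix N d → k}
    (hf : NZ (tup f)) : ∃ (ν : ℕ) (e : Ix N d ≃ Fin ν ⊕ (Fin (N + 1) × Fin (N + 1)))
    (τ : Fin ν → Ix N d → k), LinearIndependent k (fun a : Ix N d =>
      Sum.elim τ (fun ij => Helper819.Dyn.xi (Eij k N ij) f) (e a)) := by
  classical
  have hv := xi_linInd hd hf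
  obtain ⟨W, hW⟩ := Submodule.exists_isCompl
    (Submodule.span k (Set.range fun ij => Helper819.Dyn.xi (Eij k N ij) f))
  let b := Module.finBasis k W
  let τ : Fin (Module.finrank k W) → Ix N d → k := fun l => (b l : Ix N d → k)
  have hτ : LinearIndependent k τ :=
    b.linearIndependent.map' W.subtype (Submodule.ker_subtype W)
  have hτr : Submodule.span k (Set.range τ) ≤ W := by
    rw [Submodule.span_le]
    rintro _ ⟨l, rfl⟩
    exact (b l).2
  have hsum : LinearIndependent k
      (Sum.elim τ (fun ij => Helper819.Dyn.xi (Eij k N ij) f)) :=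
    hτ.sum_type hv (Disjoint.mono_left hτr hW.disjoint.symm)
  have hcard : Fintype.card (Ix N d) =
      Fintype.card (Fin (Module.finrank k W) ⊕ (Fin (N + 1) × Fin (N + 1))) := by
    have h1 := Submodule.finrank_add_eq_of_isCompl hW
    rw [finrank_span_eq_card hv, Module.finrank_fintype_fun_eq_card] at h1
    rw [Fintype.card_sum, Fintype.card_fin, ← h1, add_comm]
  exact ⟨_, Fintype.equivOfCardEq hcard, τ, hsum.comp _ (Equiv.injective _)⟩

end

end Pool.Agent.W512.ML
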